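import Mathlib

/-!
Project AT (MP_d88658_nt), case B: algebraic preparations.
-/

open Polynomial

set_option autoImplicit false

namespace Pool.Agent.K7.H89.BS

theorem coprime_eval {f : ℤ[X]} (hf : f.Monic) {x m : ℤ} (h : IsCoprime x m) :
    IsCoprime ((f.scaleRoots m).eval x) m := by
  have h1 : m ∣ (f.scaleRoots m).eval x - x ^ f.natDegree := by
    rw [eval_eq_sum_range, natDegree_scaleRoots, Finset.sum_range_succ, coeff_scaleRoots]
    have h2 : f.coeff f.natDegree = 1 := hf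
    rw [h2, Nat.sub_self, pow_zero, mul_one, one_mul, add_sub_cancel_right]
    refine Finset.dvd_sum fun i hi => ?_
    rw [Finset.mem_range] at hi
    rw [coeff_scaleRoots]
    refine Dvd.dvd.mul_right (Dvd.dvd.mul_left ?_ _) _
    exact dvd_pow_self m (by omega)
  obtain ⟨k, hk⟩ := h1
  have h3 : (f.scaleRoots m).eval x = x ^ f.natDegree + m * k := by linarith
  rw [h3]
  exact (h.pow_left).add_mul_left_left k

/-- homogeneity -/
theorem eval_scale (f : ℤ[X]) (g x m : ℤ) :
    (f.scaleRoots (g * m)).eval (g * x) = g ^ f.natDegree * (f.scaleRoots m).eval x := by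
  rw [mul_comm g m, scaleRoots_mul, scaleRoots_eval_mul, natDegree_scaleRoots]

theorem scaleRoots_prod {ι : Type*} (s : Finset ι) (f : ι → ℤ[X]) (m : ℤ) :
    (∏ i ∈ s, f i).scaleRoots m = ∏ i ∈ s, (f i).scaleRoots m := by
  classical
  induction s using Finset.induction_on with
  | empty => simp
  | insert a s ha ih =>
    rw [Finset.prod_insert ha, Finset.prod_insert ha, mul_scaleRoots_of_noZeroDivisors, ih]

/-- distinct monic irreducible polynomials satisfy a Bezout identity -/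
theorem exists_bezout {f g : ℤ[X]} (hf : f.Monic) (hg : g.Monic) (hfi : Irreducible f)
    (hgi : Irreducible g) (hne : f ≠ g) :
    ∃ (R : ℤ) (a b : ℤ[X]), R ≠ 0 ∧ a * f + b * g = C R := by
  have h1 : Irreducible (f.map (algebraMap ℤ ℚ)) :=
    (Monic.irreducible_iff_irreducible_map_fraction_map hf).1 hfi
  have h2 : Irreducible (g.map (algebraMap ℤ ℚ)) :=
    (Monic.irreducible_iff_irreducible_map_fraction_map hg).1 hgi
  have h3 : IsCoprime (f.map (algebraMap ℤ ℚ)) (g.map (algebraMap ℤ ℚ)) := by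
    rw [h1.coprime_iff_not_dvd]
    intro h4
    have h5 : Associated (f.map (algebraMap ℤ ℚ)) (g.map (algebraMap ℤ ℚ)) :=
      (h1.dvd_irreducible_iff_associated h2).1 h4
    have h6 := eq_of_monic_of_associated (hf.map _) (hg.map _) h5
    exact hne (map_injective _ (algebraMap ℤ ℚ).injective_int h6)
  obtain ⟨a, b, hab⟩ := h3
  obtain ⟨c, hc, hc'⟩ := IsLocalization.integerNormalization_spec (nonZeroDivisors ℤ) a
  obtain ⟨d, hd, hd'⟩ := IsLocalization.integerNormalization_spec (nonZeroDivisors ℤ) b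
  have hc0 : c ≠ 0 := nonZeroDivisors.ne_zero hc
  have hd0 : d ≠ 0 := nonZeroDivisors.ne_zero hd
  refine ⟨c * d, C d * IsLocalization.integerNormalization (nonZeroDivisors ℤ) a,
    C c * IsLocalization.integerNormalization (nonZeroDivisors ℤ) b, mul_ne_zero hc0 hd0, ?_⟩
  apply map_injective _ (algebraMap ℤ ℚ).injective_int
  simp only [Polynomial.map_add, Polynomial.map_mul, map_C] 
  rw [hc', hd']
  simp only [zsmul_eq_mul, algebraMap_int_eq, eq_intCast, map_intCast, map_mul] at hab ⊢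
  linear_combination ((c : ℚ[X]) * (d : ℚ[X])) * hab

theorem dvd_const {f g : ℤ[X]} (hf : f.Monic) {R : ℤ} {a b : ℤ[X]}
    (h : a * f + b * g = C R) {x m q : ℤ} (hxm : IsCoprime x m)
    (h1 : q ∣ (f.scaleRoots m).eval x) (h2 : q ∣ (g.scaleRoots m).eval x) : q ∣ R := by
  have hq : IsCoprime q m := IsCoprime.of_isCoprime_of_dvd_left (coprime_eval hf hxm) h1
  obtain ⟨u, v, huv⟩ := hq
  have key : ∀ p : ℤ[X], q ∣ (p.scaleRoots m).eval x → q ∣ p.eval (v * x) := by
    intro p hp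
    have h3 : x - m * (v * x) ∣ (p.scaleRoots m).eval x - (p.scaleRoots m).eval (m * (v * x)) :=
      sub_dvd_eval_sub _ _ _
    have h4 : q ∣ x - m * (v * x) := ⟨u * x, by linear_combination -x * huv⟩
    have h5 : q ∣ (p.scaleRoots m).eval (m * (v * x)) := by
      have := dvd_sub hp (h4.trans h3)
      rwa [sub_sub_cancel] at this
    rw [scaleRoots_eval_mul] at h5
    exact ((show IsCoprime q m from ⟨u, v, huv⟩).pow_right).dvd_of_dvd_mul_left h5
  have h6 := congrArg (eval (v * x)) h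
  rw [eval_add, eval_mul, eval_mul, eval_C] at h6
  rw [← h6]
  exact dvd_add (Dvd.dvd.mul_left (key f h1) _) (Dvd.dvd.mul_left (key g h2) _)

/-- a common constant for all pairs -/
theorem exists_R {k : ℕ} (F : Fin k → ℤ[X]) (hm : ∀ i, (F i).Monic) (hi : ∀ i, Irreducible (F i))
    (hinj : Function.Injective F) : ∃ R : ℕ, 1 ≤ R ∧ ∀ i j, i ≠ j → ∀ x m q : ℤ, IsCoprime x m →
      q ∣ ((F i).scaleRoots m).eval x → q ∣ ((F j).scaleRoots m).eval x → q ∣ (R : ℤ) := by
  classical
  have h1 : ∀ p : Fin k × Fin k, ∃ R : ℤ, R ≠ 0 ∧ (p.1 ≠ p.2 → ∀ x m q : ℤ, IsCoprime x m →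
      q ∣ ((F p.1).scaleRoots m).eval x → q ∣ ((F p.2).scaleRoots m).eval x → q ∣ R) := by
    rintro ⟨i, j⟩
    by_cases hij : i = j
    · exact ⟨1, one_ne_zero, fun h => absurd hij h⟩
    · obtain ⟨R, a, b, hR, hab⟩ := exists_bezout (hm i) (hm j) (hi i) (hi j)
        (fun h => hij (hinj h))
      exact ⟨R, hR, fun _ x m q hxm h1 h2 => dvd_const (hm i) hab hxm h1 h2⟩
  choose R hR hR' using h1
  refine ⟨(∏ p, R p).natAbs, ?_, ?_⟩
  · rw [Nat.one_le_iff_ne_zero, Int.natAbs_ne_zero]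
    exact Finset.prod_ne_zero_iff.2 fun p _ => hR p
  · intro i j hij x m q hxm h1 h2
    rw [Int.dvd_natAbs]
    exact (hR' (i, j) hij x m q hxm h1 h2).trans (Finset.dvd_prod_of_mem R (Finset.mem_univ (i, j)))

theorem exists_sf : ∃ sf : ℤ → ℤ, ∀ z : ℤ, z ≠ 0 → Squarefree (sf z) ∧
    ∃ t : ℤ, t ≠ 0 ∧ z = sf z * t ^ 2 := by
  have h1 : ∀ z : ℤ, ∃ h : ℤ, z ≠ 0 → Squarefree h ∧ ∃ t : ℤ, t ≠ 0 ∧ z = h * t ^ 2 := by
    intro z
    by_cases hz : z = 0
    · exact ⟨0, fun h => absurd hz h⟩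
    · obtain ⟨a, b, hab, ha⟩ := Nat.sq_mul_squarefree z.natAbs
      refine ⟨z.sign * a, fun _ => ⟨?_, b, ?_, ?_⟩⟩
      · rw [← Int.squarefree_natAbs, Int.natAbs_mul, Int.natAbs_sign_of_ne_zero hz, one_mul,
          Int.natAbs_natCast]
        exact ha
      · rintro hb
        have hb' : b = 0 := by exact_mod_cast hb
        rw [hb'] at hab
        apply hz
        rw [← Int.natAbs_eq_zero, ← hab]
        simp
      · have h2 : ((b : ℤ) ^ 2 * a) = |z| := by
          rw [Int.abs_eq_natAbs, ← hab]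
          push_cast
          ring
        calc z = z.sign * |z| := (Int.sign_mul_abs z).symm
          _ = z.sign * a * (b : ℤ) ^ 2 := by rw [← h2]; ring
  choose sf hsf using h1
  exact ⟨sf, hsf⟩

theorem sq_lemma {g F w h t : ℤ} (hF : g * F = w ^ 2) (hFt : F = h * t ^ 2) (hh : Squarefree h)
    (ht : t ≠ 0) : ∃ v, g = h * v ^ 2 := by
  have hh0 : h ≠ 0 := hh.ne_zero
  have h1 : t ^ 2 ∣ w ^ 2 := ⟨g * h, by rw [← hF, hFt]; ring⟩
  rw [Int.pow_dvd_pow_iff two_ne_zero] at h1
  obtain ⟨w', rfl⟩ := h1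
  have h2 : g * h = w' ^ 2 := by
    apply mul_left_cancel₀ (pow_ne_zero 2 ht)
    rw [hFt] at hF
    linear_combination hF
  have h3 : h ∣ w' := by
    rw [← hh.dvd_pow_iff_dvd two_ne_zero, ← h2]
    exact dvd_mul_left _ _
  obtain ⟨v, rfl⟩ := h3
  refine ⟨v, ?_⟩
  apply mul_left_cancel₀ hh0
  linear_combination h2

theorem prod_bound {k : ℕ} (g : Fin k → ℤ) (hg : ∀ i, Squarefree (g i)) {R : ℕ} (hR : 1 ≤ R)
    (hgcd : ∀ i j, i ≠ j → ∀ q : ℤ, q ∣ g i → q ∣ g j → q ∣ (R : ℤ)) {h t Y : ℤ}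
    (hh : h ≠ 0) (hY : Y ≠ 0) (hE : (∏ i, g i) * Y ^ 2 = h * t ^ 2) :
    ∏ i, |g i| ≤ (R : ℤ) ^ k * |h| := by
  classical
  have h1 : ∀ i, ∃ d e : ℤ, g i = d * e ∧ d ∣ R ∧ |d| ≤ R ∧ IsCoprime e R := by
    intro i
    have hR0 : (R : ℤ) ≠ 0 := by positivity
    have hd : ((Int.gcd (g i) R : ℕ) : ℤ) ∣ g i := Int.gcd_dvd_left ..
    have hd' : ((Int.gcd (g i) R : ℕ) : ℤ) ∣ R := Int.gcd_dvd_right ..
    obtain ⟨e, he⟩ := hd
    refine ⟨Int.gcd (g i) R, e, he, hd', ?_, ?_⟩
    · rw [abs_of_nonneg (by positivity)]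
      exact Int.le_of_dvd (by positivity) hd'
    · rw [Int.isCoprime_iff_gcd_eq_one]
      by_contra hne
      obtain ⟨p, hp, hpd⟩ := Nat.exists_prime_and_dvd hne
      have hpe : (p : ℤ) ∣ e := (Int.natCast_dvd_natCast.2 hpd).trans (Int.gcd_dvd_left ..)
      have hpR : (p : ℤ) ∣ R := (Int.natCast_dvd_natCast.2 hpd).trans (Int.gcd_dvd_right ..)
      have hpg : (p : ℤ) ∣ g i := by rw [he]; exact Dvd.dvd.mul_left hpe _
      have hpd' : (p : ℤ) ∣ (Int.gcd (g i) R : ℕ) := by
        exact Int.dvd_coe_gcd hpg hpR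
      have h2 : (p : ℤ) * p ∣ g i := by rw [he]; exact mul_dvd_mul hpd' hpe
      have h3 := hg i _ h2
      rw [Int.isUnit_iff_natAbs_eq, Int.natAbs_natCast] at h3
      exact hp.one_lt.ne' h3
  choose d e hde hdR hdR' heR using h1
  have h2 : ∀ i j, i ≠ j → IsCoprime (e i) (g j) := by
    intro i j hij
    rw [Int.isCoprime_iff_gcd_eq_one]
    have h3 : ((Int.gcd (e i) (g j) : ℕ) : ℤ) ∣ e i := Int.gcd_dvd_left ..
    have h4 : ((Int.gcd (e i) (g j) : ℕ) : ℤ) ∣ g j := Int.gcd_dvd_right ..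
    have h5 : ((Int.gcd (e i) (g j) : ℕ) : ℤ) ∣ R := by
      apply hgcd i j hij _ _ h4
      rw [hde i]
      exact Dvd.dvd.mul_left h3 _
    have h6 := (heR i).isUnit_of_dvd' h3 h5
    rw [Int.isUnit_iff_natAbs_eq, Int.natAbs_natCast] at h6
    exact h6
  have hsq : ∃ w : ℤ, (∏ i, g i) * h = w ^ 2 := by
    have h3 : Y ^ 2 ∣ (h * t) ^ 2 := ⟨(∏ i, g i) * h, by linear_combination -h * hE⟩
    rw [Int.pow_dvd_pow_iff two_ne_zero] at h3
    obtain ⟨w, hw⟩ := h3
    refine ⟨w, ?_⟩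
    apply mul_left_cancel₀ (pow_ne_zero 2 hY)
    have h4 : (h * t) ^ 2 = (Y * w) ^ 2 := by rw [hw]
    linear_combination h4 + h * hE
  obtain ⟨w, hw⟩ := hsq
  have h3 : ∀ i, e i ∣ h := by
    intro i
    have hei : Squarefree (e i) := (hg i).squarefree_of_dvd (by rw [hde i]; exact dvd_mul_left _ _)
    have h4 : (∏ j, g j) = g i * ∏ j ∈ Finset.univ.erase i, g j :=
      (Finset.mul_prod_erase _ _ (Finset.mem_univ i)).symm
    have h5 : e i * (d i * (∏ j ∈ Finset.univ.erase i, g j) * h) = w ^ 2 := by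
      rw [← hw, h4, hde i]
      ring
    have h6 : e i ∣ w := by
      rw [← hei.dvd_pow_iff_dvd two_ne_zero, ← h5]
      exact dvd_mul_right _ _
    obtain ⟨v, rfl⟩ := h6
    have h7 : d i * (∏ j ∈ Finset.univ.erase i, g j) * h = e i * v ^ 2 := by
      apply mul_left_cancel₀ hei.ne_zero
      linear_combination h5
    have h8 : e i ∣ d i * (∏ j ∈ Finset.univ.erase i, g j) * h := by
      rw [h7]; exact dvd_mul_right _ _
    have h9 : IsCoprime (e i) (d i * ∏ j ∈ Finset.univ.erase i, g j) := by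
      apply IsCoprime.mul_right
      · exact IsCoprime.of_isCoprime_of_dvd_right (heR i) (hdR i)
      · apply IsCoprime.prod_right
        intro j hj
        exact h2 i j (Finset.ne_of_mem_erase hj).symm
    exact h9.dvd_of_dvd_mul_left h8
  have h4 : (∏ i, e i) ∣ h := by
    apply Finset.prod_dvd_of_coprime
    · intro i _ j _ hij
      exact IsCoprime.of_isCoprime_of_dvd_right (h2 i j hij) (by rw [hde j]; exact dvd_mul_left _ _)
    · intro i _
      exact h3 i
  have h5 : ∏ i, |e i| ≤ |h| := by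
    rw [← Finset.abs_prod]
    exact Int.le_of_dvd (abs_pos.2 hh) ((abs_dvd_abs _ _).2 h4)
  calc ∏ i, |g i| = ∏ i, (|d i| * |e i|) := Finset.prod_congr rfl fun i _ => by
        rw [← abs_mul, ← hde i]
    _ ≤ ∏ i : Fin k, ((R : ℤ) * |e i|) := Finset.prod_le_prod (fun i _ => by positivity)
        fun i _ => mul_le_mul_of_nonneg_right (hdR' i) (abs_nonneg _)
    _ = (R : ℤ) ^ k * ∏ i, |e i| := by
        rw [Finset.prod_mul_distrib, Finset.prod_const, Finset.card_univ, Fintype.card_fin]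
    _ ≤ (R : ℤ) ^ k * |h| := mul_le_mul_of_nonneg_left h5 (by positivity)

theorem eval_ne_zero {f : ℤ[X]} (hf : f.Monic) : ∃ B : ℤ, ∀ x m : ℤ, 0 < m → IsCoprime x m →
    B < |x| → (f.scaleRoots m).eval x ≠ 0 := by
  classical
  refine ⟨∑ r ∈ f.roots.toFinset, |r|, fun x m hm hxm hB h0 => ?_⟩
  have h1 := coprime_eval hf hxm
  rw [h0, isCoprime_zero_left, Int.isUnit_iff] at h1
  have h2 : m = 1 := by omega
  rw [h2, scaleRoots_one] at h0
  have h3 : x ∈ f.roots.toFinset := by
    rw [Multiset.mem_toFinset, mem_roots hf.ne_zero]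
    exact h0
  have h4 := Finset.single_le_sum (f := fun r : ℤ => |r|) (fun i _ => abs_nonneg i) h3
  exact absurd (lt_of_lt_of_le hB h4) (lt_irrefl _)

/-- factorisation into monic irreducible polynomials -/
theorem exists_factors : ∀ (n : ℕ) (f : ℤ[X]), f.Monic → f.natDegree = n →
    ∃ l : List ℤ[X], (∀ p ∈ l, p.Monic ∧ Irreducible p) ∧ l.prod = f := by
  intro n
  induction n using Nat.strong_induction_on with
  | _ n ih =>
    intro f hf hn
    by_cases h0 : n = 0
    · refine ⟨[], by simp, ?_⟩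
      rw [(Monic.natDegree_eq_zero hf).1 (by omega)]
      rfl
    · have hu : ¬ IsUnit f := fun h => h0 (by rw [← hn, natDegree_eq_zero_of_isUnit h])
      obtain ⟨p, hp, q, hq⟩ := WfDvdMonoid.exists_irreducible_factor hu hf.ne_zero
      have hl : p.leadingCoeff * q.leadingCoeff = 1 := by
        rw [← leadingCoeff_mul, ← hq]
        exact hf
      have hpu : IsUnit p.leadingCoeff := IsUnit.of_mul_eq_one _ hl
      -- make p monic
      obtain ⟨u, hu2, hum, huc⟩ : ∃ u : ℤ, u * u = 1 ∧ (C u * p).Monic ∧ (C u * q).Monic := by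
        refine ⟨p.leadingCoeff, ?_, ?_, ?_⟩
        · rcases Int.isUnit_iff.1 hpu with h | h <;> rw [h] <;> norm_num
        · rw [Monic, leadingCoeff_mul, leadingCoeff_C]
          rcases Int.isUnit_iff.1 hpu with h | h <;> rw [h] <;> norm_num
        · rw [Monic, leadingCoeff_mul, leadingCoeff_C]
          exact hl
      have hfe : f = (C u * p) * (C u * q) := by
        rw [hq]
        have : (C u * C u : ℤ[X]) = 1 := by rw [← C_mul, hu2, C_1]
        linear_combination -(p * q) * this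
      have hui : IsUnit (C u : ℤ[X]) := isUnit_C.2 (IsUnit.of_mul_eq_one _ hu2)
      have hpi : Irreducible (C u * p) := (irreducible_isUnit_mul hui).2 hp
      have hpd : 1 ≤ (C u * p).natDegree := by
        by_contra hcon
        have h1 := (Monic.natDegree_eq_zero hum).1 (by omega)
        exact hpi.not_isUnit (by rw [h1]; exact isUnit_one)
      have hdeg : n = (C u * p).natDegree + (C u * q).natDegree := by
        rw [← hn, ← hum.natDegree_mul huc, ← hfe]
      obtain ⟨l, hl1, hl2⟩ := ih _ (by omega) (C u * q) huc rfl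
      refine ⟨(C u * p) :: l, ?_, ?_⟩
      · intro p' hp'
        rcases List.mem_cons.1 hp' with rfl | h
        · exact ⟨hum, hpi⟩
        · exact hl1 _ h
      · rw [List.prod_cons, hl2, ← hfe]

theorem exists_fin {f : ℤ[X]} (hf : f.Monic) (hsep : (f.map (Int.castRingHom ℚ)).Separable) :
    ∃ (k : ℕ) (F : Fin k → ℤ[X]), (∀ i, (F i).Monic) ∧ (∀ i, Irreducible (F i)) ∧
      Function.Injective F ∧ f = ∏ i, F i := by
  obtain ⟨l, hl, hlf⟩ := exists_factors _ f hf rfl
  refine ⟨l.length, fun i => l.get i, fun i => (hl _ (List.get_mem l i)).1,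
    fun i => (hl _ (List.get_mem l i)).2, ?_, ?_⟩
  · intro i j hij
    by_contra hne
    have hprod : f = ∏ i, l.get i := by
      rw [← hlf]
      conv_lhs => rw [← List.ofFn_get l]
      rw [List.prod_ofFn]
    have h1 : l.get i * l.get i ∣ f := by
      rw [hprod, ← Finset.mul_prod_erase _ _ (Finset.mem_univ i)]
      apply mul_dvd_mul_left
      have : l.get i = l.get j := hij
      rw [this]
      exact Finset.dvd_prod_of_mem _ (Finset.mem_erase.2 ⟨fun h => hne h.symm, Finset.mem_univ j⟩)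
    have h2 := Polynomial.map_dvd (Int.castRingHom ℚ) h1
    rw [Polynomial.map_mul] at h2
    have h3 := hsep.squarefree _ h2
    have hmon := (hl _ (List.get_mem l i)).1
    have hirr := (hl _ (List.get_mem l i)).2
    have h4 := natDegree_eq_zero_of_isUnit h3
    rw [hmon.natDegree_map] at h4
    exact hirr.not_isUnit (by rw [(Monic.natDegree_eq_zero hmon).1 h4]; exact isUnit_one)
  · rw [← hlf]
    conv_lhs => rw [← List.ofFn_get l]
    rw [List.prod_ofFn]

end Pool.Agent.K7.H89.BS
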