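import Pool.Agent.K7.H89.BS.A

/-!
Project AT (MP_d88658_nt), case B: counting.
-/

open Filter

set_option autoImplicit false

namespace Pool.Agent.K7.H89.BS

/-- `Y^(k+1) ≤ Z^k` implies that `Y (log Y)^K` is small compared with `Z` -/
theorem asym (k K : ℕ) (hk : 1 ≤ k) (δ : ℝ) (hδ : 0 < δ) : ∃ T : ℝ, 0 ≤ T ∧ ∀ Y Z : ℕ,
    Y ^ (k + 1) ≤ Z ^ k → (Y : ℝ) * ((Nat.log 2 Y : ℝ) + 1) ^ K ≤ δ * Z + T := by
  have h1 : Tendsto (fun l : ℕ => (l : ℝ) ^ (K * k) / 2 ^ l) atTop (nhds 0) :=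
    tendsto_pow_const_div_const_pow_of_one_lt (K * k) (by norm_num)
  have h2 : ∀ᶠ l : ℕ in atTop, (l : ℝ) ^ (K * k) / 2 ^ l < δ ^ k / 2 :=
    h1.eventually_lt_const (by positivity)
  obtain ⟨l0, hl0⟩ := eventually_atTop.1 h2
  refine ⟨(2 : ℝ) ^ (l0 + 1) * (l0 + 1) ^ K, by positivity, fun Y Z hYZ => ?_⟩
  set l := Nat.log 2 Y with hl
  rcases Nat.lt_or_ge l l0 with h | h
  · have h3 : Y < 2 ^ (l + 1) := Nat.lt_pow_succ_log_self (by norm_num) Y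
    have h4 : (Y : ℝ) ≤ 2 ^ (l0 + 1) := by
      have : (Y : ℝ) < 2 ^ (l + 1) := by exact_mod_cast h3
      exact this.le.trans (pow_le_pow_right₀ (by norm_num) (by omega))
    have h5 : ((l : ℝ) + 1) ^ K ≤ (l0 + 1) ^ K := by
      have : (l : ℝ) ≤ l0 := by exact_mod_cast h.le
      exact pow_le_pow_left₀ (by positivity) (by linarith) _
    have h6 : (Y : ℝ) * ((l : ℝ) + 1) ^ K ≤ 2 ^ (l0 + 1) * (l0 + 1) ^ K :=
      mul_le_mul h4 h5 (by positivity) (by positivity)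
    have : 0 ≤ δ * Z := by positivity
    linarith
  · rcases Nat.eq_zero_or_pos Y with hY | hY
    · rw [hY]
      simp only [Nat.cast_zero, zero_mul]
      positivity
    · have h3 : 2 ^ l ≤ Y := Nat.pow_log_le_self 2 (by omega)
      have h3' : (2 : ℝ) ^ l ≤ Y := by exact_mod_cast h3
      have h4 := hl0 (l + 1) (by omega)
      rw [div_lt_iff₀ (by positivity)] at h4
      push_cast at h4
      have h5 : ((l : ℝ) + 1) ^ (K * k) ≤ δ ^ k * Y := by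
        calc ((l : ℝ) + 1) ^ (K * k) ≤ δ ^ k / 2 * 2 ^ (l + 1) := h4.le
          _ = δ ^ k * 2 ^ l := by ring
          _ ≤ δ ^ k * Y := mul_le_mul_of_nonneg_left h3' (by positivity)
      have h6 : ((Y : ℝ) * ((l : ℝ) + 1) ^ K) ^ k ≤ (δ * Z) ^ k := by
        calc ((Y : ℝ) * ((l : ℝ) + 1) ^ K) ^ k = (Y : ℝ) ^ k * ((l : ℝ) + 1) ^ (K * k) := by
              rw [mul_pow, ← pow_mul]
          _ ≤ (Y : ℝ) ^ k * (δ ^ k * Y) := mul_le_mul_of_nonneg_left h5 (by positivity)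
          _ = δ ^ k * ((Y : ℝ) ^ (k + 1)) := by ring
          _ ≤ δ ^ k * ((Z : ℝ) ^ k) := by
              apply mul_le_mul_of_nonneg_left _ (by positivity)
              exact_mod_cast hYZ
          _ = (δ * Z) ^ k := by rw [mul_pow]
      have h7 := le_of_pow_le_pow_left₀ (by omega) (by positivity) h6
      have : (0 : ℝ) ≤ 2 ^ (l0 + 1) * (l0 + 1) ^ K := by positivity
      linarith

/-- few integers are divisible by a large square -/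
theorem card_large_sq (S0 : ℕ) (hS : 1 ≤ S0) (N : ℕ) :
    (Set.ncard {D : ℤ | D ≠ 0 ∧ |D| ≤ N ∧ ∃ s : ℕ, S0 < s ∧ (s : ℤ) ^ 2 ∣ D} : ℝ) ≤ 2 * N / S0 := by
  classical
  -- the multiples of `s ^ 2`
  set T : ℕ → Finset ℤ := fun s =>
    ((Finset.Icc 1 (N / s ^ 2)).image fun a : ℕ => ((s : ℤ) ^ 2 * a)) ∪
    ((Finset.Icc 1 (N / s ^ 2)).image fun a : ℕ => (-((s : ℤ) ^ 2 * a))) with hT
  have hsub : {D : ℤ | D ≠ 0 ∧ |D| ≤ N ∧ ∃ s : ℕ, S0 < s ∧ (s : ℤ) ^ 2 ∣ D} ⊆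
      ((Finset.Ioc S0 (max S0 N)).biUnion T : Finset ℤ) := by
    rintro D ⟨hD0, hDN, s, hs, hsD⟩
    have hs0 : 0 < s := by omega
    have h1 : (s : ℤ) ^ 2 ≤ |D| := Int.le_of_dvd (abs_pos.2 hD0) ((dvd_abs _ _).2 hsD)
    have h2 : s ≤ s ^ 2 := Nat.le_self_pow two_ne_zero s
    have h3 : s ^ 2 ≤ N := by
      have : ((s ^ 2 : ℕ) : ℤ) ≤ N := by push_cast; omega
      exact_mod_cast this
    rw [Finset.coe_biUnion, Set.mem_iUnion₂]
    refine ⟨s, ?_, ?_⟩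
    · rw [Finset.mem_coe, Finset.mem_Ioc]
      exact ⟨hs, le_max_of_le_right (by omega)⟩
    · obtain ⟨c, hc⟩ := hsD
      have hc0 : c ≠ 0 := by
        rintro rfl
        exact hD0 (by rw [hc, mul_zero])
      have hcN : c.natAbs ≤ N / s ^ 2 := by
        rw [Nat.le_div_iff_mul_le (by positivity)]
        have : |D| = (s : ℤ) ^ 2 * |c| := by rw [hc, abs_mul, abs_of_nonneg (by positivity)]
        rw [this] at hDN
        have h4 : ((c.natAbs * s ^ 2 : ℕ) : ℤ) ≤ N := by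
          push_cast
          linarith
        exact_mod_cast h4
      have hc1 : 1 ≤ c.natAbs := Nat.one_le_iff_ne_zero.2 (Int.natAbs_ne_zero.2 hc0)
      rw [hT, Finset.mem_coe, Finset.mem_union, Finset.mem_image, Finset.mem_image]
      rcases lt_or_gt_of_ne hc0 with h | h
      · right
        refine ⟨c.natAbs, Finset.mem_Icc.2 ⟨hc1, hcN⟩, ?_⟩
        rw [hc, Int.ofNat_natAbs_of_nonpos h.le]
        ring
      · left
        refine ⟨c.natAbs, Finset.mem_Icc.2 ⟨hc1, hcN⟩, ?_⟩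
        rw [hc, Int.natAbs_of_nonneg h.le]
  have hcard : ∀ s, 1 ≤ s → ((T s).card : ℝ) ≤ 2 * N * ((s : ℝ) ^ 2)⁻¹ := by
    intro s hs
    have h1 : (T s).card ≤ N / s ^ 2 + N / s ^ 2 := by
      refine (Finset.card_union_le _ _).trans ?_
      refine Nat.add_le_add ?_ ?_
      · refine Finset.card_image_le.trans ?_
        rw [Nat.card_Icc, Nat.add_sub_cancel]
      · refine Finset.card_image_le.trans ?_
        rw [Nat.card_Icc, Nat.add_sub_cancel]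
    have h2 : ((N / s ^ 2 : ℕ) : ℝ) ≤ (N : ℝ) / ((s ^ 2 : ℕ) : ℝ) := Nat.cast_div_le
    have h3 : ((T s).card : ℝ) ≤ ((N / s ^ 2 : ℕ) : ℝ) + ((N / s ^ 2 : ℕ) : ℝ) := by
      exact_mod_cast h1
    have h4 : (N : ℝ) / ((s ^ 2 : ℕ) : ℝ) = N * ((s : ℝ) ^ 2)⁻¹ := by
      push_cast
      rw [div_eq_mul_inv]
    rw [h4] at h2
    linarith
  have h1 : (Set.ncard {D : ℤ | D ≠ 0 ∧ |D| ≤ N ∧ ∃ s : ℕ, S0 < s ∧ (s : ℤ) ^ 2 ∣ D}) ≤
      ((Finset.Ioc S0 (max S0 N)).biUnion T).card := by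
    have := Set.ncard_le_ncard hsub (Finset.finite_toSet _)
    rwa [Set.ncard_coe_finset] at this
  have h2 := h1.trans Finset.card_biUnion_le
  have h3 : ((∑ s ∈ Finset.Ioc S0 (max S0 N), (T s).card : ℕ) : ℝ) ≤
      ∑ s ∈ Finset.Ioc S0 (max S0 N), 2 * N * ((s : ℝ) ^ 2)⁻¹ := by
    rw [Nat.cast_sum]
    apply Finset.sum_le_sum
    intro s hs
    exact hcard s (by rw [Finset.mem_Ioc] at hs; omega)
  have h4 := sum_Ioc_inv_sq_le_sub (α := ℝ) (k := S0) (n := max S0 N) (by omega) (le_max_left _ _)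
  rw [← Finset.mul_sum] at h3
  have h5 : (0 : ℝ) ≤ ((max S0 N : ℕ) : ℝ)⁻¹ := by positivity
  have h6 : (Set.ncard {D : ℤ | D ≠ 0 ∧ |D| ≤ N ∧ ∃ s : ℕ, S0 < s ∧ (s : ℤ) ^ 2 ∣ D} : ℝ) ≤
      ((∑ s ∈ Finset.Ioc S0 (max S0 N), (T s).card : ℕ) : ℝ) := by exact_mod_cast h2
  calc (Set.ncard {D : ℤ | D ≠ 0 ∧ |D| ≤ N ∧ ∃ s : ℕ, S0 < s ∧ (s : ℤ) ^ 2 ∣ D} : ℝ)
      ≤ 2 * N * ∑ s ∈ Finset.Ioc S0 (max S0 N), ((s : ℝ) ^ 2)⁻¹ := h6.trans h3
    _ ≤ 2 * N * (S0 : ℝ)⁻¹ := by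
        apply mul_le_mul_of_nonneg_left _ (by positivity)
        linarith
    _ = 2 * N / S0 := by rw [div_eq_mul_inv]

/-- few integers are small -/
theorem card_small (N : ℕ) : Set.ncard {D : ℤ | D ^ 2 < N} ≤ 2 * Nat.sqrt N + 1 := by
  have h1 : {D : ℤ | D ^ 2 < N} ⊆ (Finset.Icc (-(Nat.sqrt N : ℤ)) (Nat.sqrt N) : Finset ℤ) := by
    intro D hD
    have hD' : D ^ 2 < N := hD
    have h2 : D.natAbs ≤ Nat.sqrt N := by
      rw [Nat.le_sqrt']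
      have : ((D.natAbs ^ 2 : ℕ) : ℤ) ≤ N := by
        push_cast
        rw [sq_abs]
        exact hD'.le
      exact_mod_cast this
    rw [Finset.coe_Icc, Set.mem_Icc]
    omega
  have h2 := Set.ncard_le_ncard h1 (Finset.finite_toSet _)
  rw [Set.ncard_coe_finset, Int.card_Icc] at h2
  omega

end Pool.Agent.K7.H89.BS
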