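import Pool.Agent.K7.H89.BS.B
import Pool.Agent.K7.H23.AT.Stm3

/-!
Project AT (MP_d88658_nt), case B: the data of an exceptional twist.
-/

open Polynomial

set_option autoImplicit false

namespace Pool.Agent.K7.H89.BS

/-- counting by classes -/
theorem pairs {k : ℕ} (Ne : Fin (k + 1) → ℕ) (S : Fin (k + 1) → Finset ℚ[X])
    (cls : Fin (k + 1) → ℚ[X] → ℤ × ℤ → Prop) (P : Finset (ℤ × ℤ))
    (h1 : ∀ p ∈ P, ∃ j, ∃ E ∈ S j, cls j E p)
    (h2 : ∀ j, ∀ E ∈ S j, ∀ s ⊆ P, (∀ p ∈ s, cls j E p) → s.card ≤ Ne j) :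
    P.card ≤ ∑ j, (S j).card * Ne j := by
  classical
  have h3 : P ⊆ Finset.univ.biUnion fun j => (S j).biUnion fun E => P.filter fun p => cls j E p := by
    intro p hp
    obtain ⟨j, E, hE, hc⟩ := h1 p hp
    simp only [Finset.mem_biUnion, Finset.mem_univ, true_and, Finset.mem_filter]
    exact ⟨j, E, hE, hp, hc⟩
  refine (Finset.card_le_card h3).trans (Finset.card_biUnion_le.trans ?_)
  refine Finset.sum_le_sum fun j _ => ?_
  refine Finset.card_biUnion_le.trans ?_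
  rw [← smul_eq_mul, ← Finset.sum_const]
  refine Finset.sum_le_sum fun E hE => ?_
  exact h2 j E hE _ (Finset.filter_subset _ _) fun p hp => (Finset.mem_filter.1 hp).2

theorem point_data {n k : ℕ} {f : ℤ[X]} (hn : f.natDegree = n) (hodd : Odd n)
    (F : Fin (k + 1) → ℤ[X]) (hFf : f = ∏ i, F i) {R : ℕ} (hR : 1 ≤ R)
    (hR' : ∀ i j, i ≠ j → ∀ x m q : ℤ, IsCoprime x m →
      q ∣ ((F i).scaleRoots m).eval x → q ∣ ((F j).scaleRoots m).eval x → q ∣ (R : ℤ))
    {B : ℤ} (hB : ∀ x m : ℤ, 0 < m → IsCoprime x m → B < |x| → (f.scaleRoots m).eval x ≠ 0)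
    {sf : ℤ → ℤ} (hsf : ∀ z : ℤ, z ≠ 0 → Squarefree (sf z) ∧ ∃ t : ℤ, t ≠ 0 ∧ z = sf z * t ^ 2)
    {M0 N : ℕ} (hNB : B < (N : ℤ) ^ (M0 + 1)) {D x0 y : ℤ} (hD : D ≠ 0)
    (hDN : |D| ≤ N) (hDN' : (N : ℤ) ≤ D ^ 2) (hy : y ^ 2 = (f.scaleRoots D).eval x0)
    (hx0 : |D| ^ (2 * M0 + 3) < |x0|) :
    ∃ x m v : ℤ, 0 < m ∧ m ≤ N ∧ IsCoprime x m ∧ 1 ≤ v ∧
      D = sf ((f.scaleRoots m).eval x) * v ^ 2 * m ∧ (N : ℤ) ^ (M0 + 1) < |x| ∧
      (∀ i, ((F i).scaleRoots m).eval x ≠ 0) ∧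
      m * ∏ i, |sf (((F i).scaleRoots m).eval x)| ≤ (R : ℤ) ^ (k + 1) * N := by
  classical
  have hgpos : 0 < Int.gcd x0 D := Int.gcd_pos_of_ne_zero_right _ hD
  obtain ⟨x', m', hcop, hx', hm'⟩ := Int.exists_gcd_one hgpos
  set g0 : ℤ := (Int.gcd x0 D : ℤ) with hg0
  have hg0pos : 0 < g0 := Int.natCast_pos.2 hgpos
  have hm'0 : m' ≠ 0 := by
    rintro rfl
    apply hD
    rw [hm', zero_mul]
  obtain ⟨sg, hsg, hsgm⟩ : ∃ sg : ℤ, sg * sg = 1 ∧ 0 < sg * m' := by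
    rcases lt_or_gt_of_ne hm'0 with h | h
    · exact ⟨-1, by norm_num, by linarith⟩
    · exact ⟨1, by norm_num, by linarith⟩
  set x := sg * x' with hx
  set m := sg * m' with hm
  set g := sg * g0 with hg
  have hxg : x0 = g * x := by
    rw [hx, hg, hx']
    linear_combination -(x' * g0) * hsg
  have hmg : D = g * m := by
    rw [hm, hg, hm']
    linear_combination -(m' * g0) * hsg
  have hu : IsUnit sg := IsUnit.of_mul_eq_one _ hsg
  have hxm : IsCoprime x m := by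
    have h1 : IsCoprime x' m' := Int.isCoprime_iff_gcd_eq_one.2 hcop
    exact (isCoprime_mul_unit_left hu x' m').2 h1
  have hgne : g ≠ 0 := by
    rintro h
    apply hD
    rw [hmg, h, zero_mul]
  have hgabs : 0 < |g| := abs_pos.2 hgne
  have hDabs : |D| = |g| * m := by rw [hmg, abs_mul, abs_of_pos hsgm]
  have hgD : |g| ≤ |D| := by
    rw [hDabs]
    exact le_mul_of_one_le_right hgabs.le hsgm
  have hmN : m ≤ N := by
    refine le_trans ?_ hDN
    rw [hDabs]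
    exact le_mul_of_one_le_left hsgm.le hgabs
  have hxbig : (N : ℤ) ^ (M0 + 1) < |x| := by
    have h1 : |g| * (N : ℤ) ^ (M0 + 1) < |g| * |x| := by
      calc |g| * (N : ℤ) ^ (M0 + 1) ≤ |D| * (D ^ 2) ^ (M0 + 1) := by
            apply mul_le_mul hgD _ (by positivity) (abs_nonneg _)
            exact pow_le_pow_left₀ (by positivity) hDN' _
        _ = |D| ^ (2 * M0 + 3) := by
            rw [← sq_abs D]
            ring
        _ < |x0| := hx0
        _ = |g| * |x| := by rw [hxg, abs_mul]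
    exact lt_of_mul_lt_mul_left h1 hgabs.le
  have hF0 : (f.scaleRoots m).eval x ≠ 0 := hB x m hsgm hxm (hNB.trans hxbig)
  have hprod : (f.scaleRoots m).eval x = ∏ i, ((F i).scaleRoots m).eval x := by
    rw [hFf, scaleRoots_prod, eval_prod]
  have hFi0 : ∀ i, ((F i).scaleRoots m).eval x ≠ 0 := by
    rw [hprod] at hF0
    intro i
    exact Finset.prod_ne_zero_iff.1 hF0 i (Finset.mem_univ i)
  -- the square
  have hw : ∃ w : ℤ, g * (f.scaleRoots m).eval x = w ^ 2 := by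
    rw [hmg, hxg, eval_scale, hn] at hy
    obtain ⟨r, hr⟩ := hodd
    have h1 : (g ^ r) ^ 2 ∣ y ^ 2 := ⟨g * (f.scaleRoots m).eval x, by
      rw [hy, hr]
      ring⟩
    rw [Int.pow_dvd_pow_iff two_ne_zero] at h1
    obtain ⟨w, hw⟩ := h1
    refine ⟨w, ?_⟩
    apply mul_left_cancel₀ (pow_ne_zero 2 (pow_ne_zero r hgne))
    rw [hw, hr] at hy
    linear_combination -hy
  obtain ⟨w, hw⟩ := hw
  obtain ⟨hsq, t, ht, htF⟩ := hsf _ hF0
  obtain ⟨v, hv⟩ := sq_lemma hw htF hsq ht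
  have hv0 : v ≠ 0 := by
    rintro rfl
    apply hgne
    rw [hv]
    ring
  refine ⟨x, m, |v|, hsgm, hmN, hxm, Int.one_le_abs hv0, ?_, hxbig, hFi0, ?_⟩
  · rw [sq_abs, ← hv, ← hmg]
  · choose hsqi ti hti htFi using fun i => hsf _ (hFi0 i)
    have h1 : ∏ i, |sf (((F i).scaleRoots m).eval x)| ≤
        (R : ℤ) ^ (k + 1) * |sf ((f.scaleRoots m).eval x)| := by
      refine prod_bound (fun i => sf (((F i).scaleRoots m).eval x)) hsqi hR ?_
        (t := t) (Y := ∏ i, ti i) ?_ ?_ ?_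
      · intro i j hij q hqi hqj
        refine hR' i j hij x m q hxm ?_ ?_
        · rw [htFi i]; exact Dvd.dvd.mul_right hqi _
        · rw [htFi j]; exact Dvd.dvd.mul_right hqj _
      · exact hsq.ne_zero
      · exact Finset.prod_ne_zero_iff.2 fun i _ => hti i
      · rw [← htF, hprod, ← Finset.prod_pow, ← Finset.prod_mul_distrib]
        exact Finset.prod_congr rfl fun i _ => (htFi i).symm
    have h2 : |g| = |sf ((f.scaleRoots m).eval x)| * v ^ 2 := by
      rw [hv, abs_mul, abs_of_nonneg (sq_nonneg v)]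
    have h3 : |sf ((f.scaleRoots m).eval x)| ≤ |g| := by
      rw [h2]
      apply le_mul_of_one_le_right (abs_nonneg _)
      have := Int.one_le_abs hv0
      rw [← sq_abs]
      nlinarith
    calc m * ∏ i, |sf (((F i).scaleRoots m).eval x)|
        ≤ m * ((R : ℤ) ^ (k + 1) * |sf ((f.scaleRoots m).eval x)|) :=
          mul_le_mul_of_nonneg_left h1 hsgm.le
      _ ≤ m * ((R : ℤ) ^ (k + 1) * |g|) := by
          apply mul_le_mul_of_nonneg_left _ hsgm.le
          exact mul_le_mul_of_nonneg_left h3 (by positivity)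
      _ = (R : ℤ) ^ (k + 1) * |D| := by rw [hDabs]; ring
      _ ≤ (R : ℤ) ^ (k + 1) * N := mul_le_mul_of_nonneg_left hDN (by positivity)

end Pool.Agent.K7.H89.BS
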