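import Pool.Agent.K7.H89.BS.C

/-!
Project AT (MP_d88658_nt), case B: the statement `StBS` from `StPC` and `StSF`.
-/

open Polynomial

set_option autoImplicit false

namespace Pool.Agent.K7.H89.BS

open Pool.Agent.K7.H23.AT

/-- the data of the classes for a large `N` -/
theorem classes (hPC : StPC) {k : ℕ} (hk : 1 ≤ k) (F : Fin (k + 1) → ℤ[X]) (hFm : ∀ i, (F i).Monic)
    (hFi : ∀ i, Irreducible (F i)) (hinj : Function.Injective F)
    {Me Ne : Fin (k + 1) → ℕ}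
    (hMN : ∀ j, ∀ (H : ℕ) (g : ℤ[X]) (D : ℚ[X]) (s : Finset (ℤ × ℤ)), 1 ≤ H →
      g.Monic → g.natDegree = (∏ i, F (j.succAbove i)).natDegree →
      (g.map (Int.castRingHom ℚ)).Separable → (∀ i, |g.coeff i| ≤ H) →
      (∀ θ : ℂ, aeval θ g = 0 → IsIntegral ℤ (aeval θ D) ∧ aeval θ D ≠ 0 ∧ ‖aeval θ D‖ ≤ H) →
      (∀ p ∈ s, 0 < p.2 ∧ p.2 ≤ H ∧ IsCoprime p.1 p.2 ∧ (2 * H : ℤ) ^ (Me j) < |p.1| ∧
        ∃ b : ℤ, b ≠ 0 ∧ ∃ B : ℚ[X], g.map (Int.castRingHom ℚ) ∣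
          B ^ 2 - C (b : ℚ) * D * (C (p.1 : ℚ) - C (p.2 : ℚ) * X)) →
      s.card ≤ Ne j)
    (hsep : ∀ j, ((∏ i, F (Fin.succAbove j i)).map (Int.castRingHom ℚ)).Separable)
    {M0 : ℕ} (hM0 : ∀ j, Me j ≤ M0) {R : ℕ} (hR : 1 ≤ R)
    {sf : ℤ → ℤ} (hsf : ∀ z : ℤ, z ≠ 0 → Squarefree (sf z) ∧ ∃ t : ℤ, t ≠ 0 ∧ z = sf z * t ^ 2) :
    ∃ c N0 : ℕ, ∀ N : ℕ, N0 ≤ N → 1 ≤ N → ∃ Y : ℕ, Y ^ (k + 1) ≤ (R ^ (k + 1) * N) ^ k ∧
      ∀ P : Finset (ℤ × ℤ), (∀ p ∈ P, 0 < p.2 ∧ p.2 ≤ N ∧ IsCoprime p.1 p.2 ∧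
        (N : ℤ) ^ (M0 + 1) < |p.1| ∧ (∀ i, ((F i).scaleRoots p.2).eval p.1 ≠ 0) ∧
        p.2 * ∏ i, |sf (((F i).scaleRoots p.2).eval p.1)| ≤ (R : ℤ) ^ (k + 1) * N) →
        P.card ≤ c * (Y * (Nat.log 2 Y + 1) ^ k) := by
  classical
  have hG : ∀ j : Fin (k + 1), (∏ i, F (j.succAbove i)).Monic :=
    fun j => monic_prod_of_monic _ _ fun i _ => hFm _
  choose c hc using fun j : Fin (k + 1) => hPC k (fun i => F (j.succAbove i)) (fun i => hFm _)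
    (fun i => hFi _) (fun a b hab => Fin.succAbove_right_injective (hinj hab))
  -- coefficient bounds
  have hA : ∀ j : Fin (k + 1), ∃ A : ℕ, ∀ i, |(∏ i, F (j.succAbove i)).coeff i| ≤ A := by
    intro j
    refine ⟨∑ i ∈ (∏ i, F (j.succAbove i)).support, ((∏ i, F (j.succAbove i)).coeff i).natAbs,
      fun i => ?_⟩
    by_cases hi : i ∈ (∏ i, F (j.succAbove i)).support
    · have h1 := Finset.single_le_sum
        (f := fun i => ((∏ i, F (j.succAbove i)).coeff i).natAbs) (fun _ _ => Nat.zero_le _) hi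
      rw [Int.abs_eq_natAbs]
      exact_mod_cast h1
    · rw [notMem_support_iff.1 hi, abs_zero]
      positivity
  choose A hA' using hA
  obtain ⟨C1, hC1, hC1c, hC1A⟩ : ∃ C1 : ℕ, 1 ≤ C1 ∧ (∀ j, c j * R ^ (k + 1) ≤ C1) ∧
      (∀ j, A j ≤ C1) := by
    refine ⟨1 + ∑ j, c j * R ^ (k + 1) + ∑ j, A j, by omega, fun j => ?_, fun j => ?_⟩
    · have := Finset.single_le_sum (f := fun j => c j * R ^ (k + 1))
        (fun _ _ => Nat.zero_le _) (Finset.mem_univ j)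
      omega
    · have := Finset.single_le_sum (f := fun j => A j)
        (fun _ _ => Nat.zero_le _) (Finset.mem_univ j)
      omega
  refine ⟨∑ j, c j * Ne j, (2 * C1) ^ M0, fun N hN hN1 => ?_⟩
  set Z := R ^ (k + 1) * N with hZ
  have hZ1 : 1 ≤ Z := Nat.mul_pos (pow_pos hR _) hN1
  set Y := Nat.findGreatest (fun Y => Y ^ (k + 1) ≤ Z ^ k) Z with hYdef
  have hY1 : 1 ≤ Y := by
    apply Nat.le_findGreatest hZ1
    rw [one_pow]
    exact Nat.one_le_pow _ _ hZ1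
  have hYZ : Y ^ (k + 1) ≤ Z ^ k := by
    have := Nat.findGreatest_spec (P := fun Y => Y ^ (k + 1) ≤ Z ^ k) (m := 1) (n := Z) hZ1 (by
      rw [one_pow]; exact Nat.one_le_pow _ _ hZ1)
    exact this
  have hYle : Y ≤ Z := Nat.findGreatest_le _
  refine ⟨Y, hYZ, fun P hP => ?_⟩
  choose S hScard hSb hScls using fun j => hc j Y hY1
  set H := C1 * N with hH
  have hH1 : 1 ≤ H := Nat.mul_pos hC1 hN1
  have hcY : ∀ j, c j * Y ≤ H := by
    intro j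
    calc c j * Y ≤ c j * Z := Nat.mul_le_mul_left _ hYle
      _ = c j * R ^ (k + 1) * N := by rw [hZ, mul_assoc]
      _ ≤ C1 * N := Nat.mul_le_mul_right _ (hC1c j)
  have hpow : ∀ j, (2 * H : ℤ) ^ (Me j) ≤ (N : ℤ) ^ (M0 + 1) := by
    intro j
    have h1 : (2 * H) ^ (Me j) ≤ N ^ (M0 + 1) := by
      calc (2 * H) ^ (Me j) ≤ (2 * H) ^ M0 := Nat.pow_le_pow_right (by omega) (hM0 j)
        _ = (2 * C1) ^ M0 * N ^ M0 := by rw [hH, ← mul_assoc, mul_pow]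
        _ ≤ N * N ^ M0 := Nat.mul_le_mul_right _ hN
        _ = N ^ (M0 + 1) := by ring
    exact_mod_cast h1
  set cls : Fin (k + 1) → ℚ[X] → ℤ × ℤ → Prop := fun j E p => ∃ B : ℚ[X],
    (∏ i, F (j.succAbove i)).map (Int.castRingHom ℚ) ∣ B ^ 2 - E * (C (p.1 : ℚ) - C (p.2 : ℚ) * X)
    with hcls
  have hfin := pairs Ne S cls P ?_ ?_
  · calc P.card ≤ ∑ j, (S j).card * Ne j := hfin
      _ ≤ ∑ j, (c j * Y * (Nat.log 2 Y + 1) ^ k) * Ne j :=
          Finset.sum_le_sum fun j _ => Nat.mul_le_mul_right _ (hScard j)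
      _ = (∑ j, c j * Ne j) * (Y * (Nat.log 2 Y + 1) ^ k) := by
          rw [Finset.sum_mul]
          exact Finset.sum_congr rfl fun j _ => by ring
  · intro p hp
    obtain ⟨hp0, hpN, hpc, hpx, hpF, hpP⟩ := hP p hp
    obtain ⟨j, -, hj⟩ := Finset.exists_max_image (Finset.univ : Finset (Fin (k + 1)))
      (fun i => |sf (((F i).scaleRoots p.2).eval p.1)|) Finset.univ_nonempty
    choose hsqi ti hti htFi using fun i => hsf _ (hpF i)
    -- the product without the largest one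
    have hle : ∏ i : Fin k, |sf (((F (j.succAbove i)).scaleRoots p.2).eval p.1)| ≤ Y := by
      have e0 : ∀ i, 1 ≤ |sf (((F i).scaleRoots p.2).eval p.1)| := fun i =>
        Int.one_le_abs (hsqi i).ne_zero
      set q : ℤ := ∏ i : Fin k, |sf (((F (j.succAbove i)).scaleRoots p.2).eval p.1)| with hq
      have hq0 : 0 ≤ q := Finset.prod_nonneg fun i _ => abs_nonneg _
      have h1 : |sf (((F j).scaleRoots p.2).eval p.1)| * q ≤ Z := by
        rw [hq, ← Fin.prod_univ_succAbove (fun i => |sf (((F i).scaleRoots p.2).eval p.1)|) j]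
        have h2 : ∏ i, |sf (((F i).scaleRoots p.2).eval p.1)| ≤
            p.2 * ∏ i, |sf (((F i).scaleRoots p.2).eval p.1)| :=
          le_mul_of_one_le_left (Finset.prod_nonneg fun i _ => abs_nonneg _) hp0
        refine (h2.trans hpP).trans (le_of_eq ?_)
        rw [hZ]
        push_cast
        ring
      have h3 : q ≤ |sf (((F j).scaleRoots p.2).eval p.1)| ^ k := by
        calc q ≤ ∏ _i : Fin k, |sf (((F j).scaleRoots p.2).eval p.1)| :=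
              Finset.prod_le_prod (fun i _ => abs_nonneg _) fun i _ => hj _ (Finset.mem_univ _)
          _ = _ := by rw [Finset.prod_const, Finset.card_univ, Fintype.card_fin]
      have h4 : q ^ (k + 1) ≤ (Z : ℤ) ^ k := by
        calc q ^ (k + 1) = q * q ^ k := by ring
          _ ≤ |sf (((F j).scaleRoots p.2).eval p.1)| ^ k * q ^ k :=
              mul_le_mul_of_nonneg_right h3 (by positivity)
          _ = (|sf (((F j).scaleRoots p.2).eval p.1)| * q) ^ k := by rw [mul_pow]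
          _ ≤ (Z : ℤ) ^ k := pow_le_pow_left₀ (by positivity) h1 _
      obtain ⟨q', hq'⟩ := Int.eq_ofNat_of_zero_le hq0
      rw [hq'] at h4 h1 ⊢
      have h5 : q' ^ (k + 1) ≤ Z ^ k := by exact_mod_cast h4
      have h6 : q' ≤ Z := by
        have h7 : ((q' : ℕ) : ℤ) ≤ Z :=
          le_trans (le_mul_of_one_le_left (by positivity) (e0 j)) h1
        exact_mod_cast h7
      exact_mod_cast Nat.le_findGreatest h6 h5
    obtain ⟨E, hE, B, hB⟩ := hScls j p.1 p.2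
      (fun i => sf (((F (j.succAbove i)).scaleRoots p.2).eval p.1)) (fun i => ti (j.succAbove i))
      hp0.ne' hpc (fun i => hsqi _) hle (fun i => hti _) (fun i => htFi _)
    exact ⟨j, E, hE, B, hB⟩
  · intro j E hE s hs hcl
    apply hMN j H _ E s hH1 (hG j) rfl (hsep j)
    · intro i
      refine (hA' j i).trans ?_
      have : A j ≤ H := (hC1A j).trans (Nat.le_mul_of_pos_right _ hN1)
      exact_mod_cast this
    · intro θ hθ
      obtain ⟨h1, h2, h3⟩ := hSb j E hE θ hθ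
      refine ⟨h1, h2, h3.trans ?_⟩
      exact_mod_cast hcY j
    · intro p hp
      obtain ⟨hp0, hpN, hpc, hpx, hpF, hpP⟩ := hP p (hs hp)
      refine ⟨hp0, hpN.trans ?_, hpc, (hpow j).trans_lt hpx, 1, one_ne_zero, ?_⟩
      · have : N ≤ H := Nat.le_mul_of_pos_left _ hC1
        exact_mod_cast this
      · obtain ⟨B, hB⟩ := hcl p hp
        refine ⟨B, ?_⟩
        rw [Int.cast_one, C_1, one_mul]
        exact hB

theorem bs (hPC : StPC) (hSF : StSF) : StBS := by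
  classical
  intro n hodd hn5
  have hSF' : ∀ e : ℕ, ∃ M N : ℕ, 3 ≤ e → ∀ (H : ℕ) (g : ℤ[X]) (D : ℚ[X]) (s : Finset (ℤ × ℤ)),
      1 ≤ H → g.Monic → g.natDegree = e → (g.map (Int.castRingHom ℚ)).Separable →
      (∀ i, |g.coeff i| ≤ H) →
      (∀ θ : ℂ, aeval θ g = 0 → IsIntegral ℤ (aeval θ D) ∧ aeval θ D ≠ 0 ∧ ‖aeval θ D‖ ≤ H) →
      (∀ p ∈ s, 0 < p.2 ∧ p.2 ≤ H ∧ IsCoprime p.1 p.2 ∧ (2 * H : ℤ) ^ M < |p.1| ∧
        ∃ b : ℤ, b ≠ 0 ∧ ∃ B : ℚ[X], g.map (Int.castRingHom ℚ) ∣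
          B ^ 2 - C (b : ℚ) * D * (C (p.1 : ℚ) - C (p.2 : ℚ) * X)) →
      s.card ≤ N := by
    intro e
    by_cases he : 3 ≤ e
    · obtain ⟨M, N, h⟩ := hSF e he
      exact ⟨M, N, fun _ => h⟩
    · exact ⟨0, 0, fun h => absurd h he⟩
  choose Me Ne hMN using hSF'
  obtain ⟨M0, hM0⟩ : ∃ M0, ∀ e ≤ n, Me e ≤ M0 :=
    ⟨∑ e ∈ Finset.range (n + 1), Me e, fun e he => Finset.single_le_sum (f := Me)
      (fun _ _ => Nat.zero_le _) (Finset.mem_range.2 (by omega))⟩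
  refine ⟨2 * M0 + 3, fun f hf hdeg hsep hfac ε hε => ?_⟩
  obtain ⟨k', F, hFm, hFi, hinj, hFf⟩ := exists_fin hf hsep
  obtain ⟨k, rfl⟩ : ∃ k, k' = k + 1 := by
    rcases Nat.eq_zero_or_pos k' with h | h
    · subst h
      rw [hFf] at hdeg
      simp at hdeg
      omega
    · exact ⟨k' - 1, by omega⟩
  have hFd : ∀ j, (F j).natDegree ≤ 2 := fun j =>
    hfac _ (hFm j) (hFi j) (by rw [hFf]; exact Finset.dvd_prod_of_mem _ (Finset.mem_univ j))
  have hsplit : ∀ j, f = F j * ∏ i, F (j.succAbove i) := fun j => by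
    rw [hFf, Fin.prod_univ_succAbove F j]
  have hG : ∀ j : Fin (k + 1), (∏ i, F (j.succAbove i)).Monic :=
    fun j => monic_prod_of_monic _ _ fun i _ => hFm _
  have hGd : ∀ j : Fin (k + 1), (F j).natDegree + (∏ i, F (j.succAbove i)).natDegree = n := by
    intro j
    rw [← hdeg, hsplit j, (hFm j).natDegree_mul (hG j)]
  have hGd3 : ∀ j : Fin (k + 1), 3 ≤ (∏ i, F (j.succAbove i)).natDegree := by
    intro j
    have := hGd j
    have := hFd j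
    omega
  have hk : 1 ≤ k := by
    rcases Nat.eq_zero_or_pos k with h | h
    · subst h
      have := hGd3 0
      simp at this
    · exact h
  have hsepG : ∀ j : Fin (k + 1),
      ((∏ i, F (j.succAbove i)).map (Int.castRingHom ℚ)).Separable := by
    intro j
    apply Separable.of_dvd hsep
    rw [hsplit j, Polynomial.map_mul]
    exact dvd_mul_left _ _
  obtain ⟨R, hR, hR'⟩ := exists_R F hFm hFi hinj
  obtain ⟨B, hB⟩ := eval_ne_zero hf
  obtain ⟨sf, hsf⟩ := exists_sf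
  obtain ⟨c, N0, hcN⟩ := classes hPC hk F hFm hFi hinj
    (Me := fun j => Me (∏ i, F (j.succAbove i)).natDegree)
    (Ne := fun j => Ne (∏ i, F (j.succAbove i)).natDegree)
    (fun j => hMN _ (hGd3 j)) hsepG (M0 := M0)
    (fun j => hM0 _ (by have := hGd j; omega)) hR hsf
  -- the parameters
  obtain ⟨S0, hS0, hS0ε⟩ : ∃ S0 : ℕ, 1 ≤ S0 ∧ 2 / (S0 : ℝ) ≤ ε / 4 := by
    refine ⟨⌈8 / ε⌉₊ + 1, by omega, ?_⟩
    have h1 : 8 / ε ≤ (⌈8 / ε⌉₊ : ℝ) := Nat.le_ceil _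
    have h2 : (0 : ℝ) < ((⌈8 / ε⌉₊ + 1 : ℕ) : ℝ) := by positivity
    rw [div_le_iff₀ h2]
    push_cast
    rw [div_le_iff₀ hε] at h1
    nlinarith
  obtain ⟨T, hT0, hT⟩ := asym k k hk (ε / (4 * S0 * (c + 1) * R ^ (k + 1))) (by
    have : (0 : ℝ) < R := by exact_mod_cast hR
    have : (0 : ℝ) < S0 := by exact_mod_cast hS0
    positivity)
  obtain ⟨N1, hN1⟩ : ∃ N1 : ℕ, ∀ N : ℕ, N1 ≤ N → (S0 * c * T + 1 : ℝ) ≤ ε / 4 * N := by
    refine ⟨⌈(S0 * c * T + 1 : ℝ) / (ε / 4)⌉₊, fun N hN => ?_⟩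
    have h1 : (S0 * c * T + 1 : ℝ) / (ε / 4) ≤ N := (Nat.le_ceil _).trans (by exact_mod_cast hN)
    rw [div_le_iff₀ (by positivity)] at h1
    linarith
  obtain ⟨N2, hN2⟩ : ∃ N2 : ℕ, ∀ N : ℕ, N2 ≤ N → (2 * (Nat.sqrt N : ℝ)) ≤ ε / 4 * N := by
    refine ⟨(⌈8 / ε⌉₊) ^ 2, fun N hN => ?_⟩
    have h1 : ⌈8 / ε⌉₊ ≤ Nat.sqrt N := Nat.le_sqrt'.2 hN
    have h2 : 8 / ε ≤ (Nat.sqrt N : ℝ) := (Nat.le_ceil _).trans (by exact_mod_cast h1)
    rw [div_le_iff₀ hε] at h2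
    have h3 : ((Nat.sqrt N : ℕ) : ℝ) * (Nat.sqrt N : ℕ) ≤ N := by exact_mod_cast Nat.sqrt_le N
    have h4 : (0 : ℝ) ≤ (Nat.sqrt N : ℝ) := by positivity
    nlinarith
  refine ⟨N0 + N1 + N2 + B.toNat + 2, fun N hN => ?_⟩
  have hNpos : 1 ≤ N := by omega
  obtain ⟨Y, hYZ, hY⟩ := hcN N (by omega) hNpos
  have hNB : B < (N : ℤ) ^ (M0 + 1) := by
    have h1 : B < N := by omega
    have h2 : (N : ℤ) ≤ (N : ℤ) ^ (M0 + 1) := by
      exact_mod_cast Nat.le_self_pow (by omega) N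
    omega
  -- the exceptional set
  set A3 : Set ℤ := {D : ℤ | D ∈ Exc f (2 * M0 + 3) ∧ |D| ≤ N ∧ (N : ℤ) ≤ D ^ 2 ∧
    ∀ s : ℕ, S0 < s → ¬ (s : ℤ) ^ 2 ∣ D} with hA3
  have hA3fin : A3.Finite := by
    apply (Set.finite_Icc (-(N : ℤ)) N).subset
    intro D hD
    exact abs_le.1 hD.2.1
  have hcover : {D : ℤ | D ∈ Exc f (2 * M0 + 3) ∧ |D| ≤ N} ⊆ {D : ℤ | D ^ 2 < N} ∪
      {D : ℤ | D ≠ 0 ∧ |D| ≤ N ∧ ∃ s : ℕ, S0 < s ∧ (s : ℤ) ^ 2 ∣ D} ∪ A3 := by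
    rintro D ⟨hD, hDN⟩
    by_cases h1 : D ^ 2 < N
    · exact Or.inl (Or.inl h1)
    · by_cases h2 : ∃ s : ℕ, S0 < s ∧ (s : ℤ) ^ 2 ∣ D
      · exact Or.inl (Or.inr ⟨hD.1, hDN, h2⟩)
      · push Not at h1 h2
        exact Or.inr ⟨hD, hDN, h1, h2⟩
  have hA3card : A3.ncard ≤ S0 * (c * (Y * (Nat.log 2 Y + 1) ^ k)) := by
    have hdata : ∀ D : ℤ, ∃ x m v : ℤ, D ∈ A3 → 0 < m ∧ m ≤ N ∧ IsCoprime x m ∧ 1 ≤ v ∧
        D = sf ((f.scaleRoots m).eval x) * v ^ 2 * m ∧ (N : ℤ) ^ (M0 + 1) < |x| ∧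
        (∀ i, ((F i).scaleRoots m).eval x ≠ 0) ∧
        m * ∏ i, |sf (((F i).scaleRoots m).eval x)| ≤ (R : ℤ) ^ (k + 1) * N := by
      intro D
      by_cases hD : D ∈ A3
      · obtain ⟨⟨hD0, x0, y, hy, hx0⟩, hDN, hDN', -⟩ := hD
        obtain ⟨x, m, v, h⟩ := point_data hdeg hodd F hFf hR hR' hB hsf hNB hD0 hDN hDN' hy hx0
        exact ⟨x, m, v, fun _ => h⟩
      · exact ⟨0, 0, 0, fun h => absurd h hD⟩
    choose x m v hxmv using hdata
    set A3' := hA3fin.toFinset with hA3'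
    have hmem : ∀ D, D ∈ A3' ↔ D ∈ A3 := fun D => Set.Finite.mem_toFinset _
    set P : Finset (ℤ × ℤ) := A3'.image fun D => (x D, m D) with hP
    have hPcard := hY P (by
      intro p hp
      rw [hP, Finset.mem_image] at hp
      obtain ⟨D, hD, rfl⟩ := hp
      obtain ⟨h1, h2, h3, -, -, h6, h7, h8⟩ := hxmv D ((hmem D).1 hD)
      exact ⟨h1, h2, h3, h6, h7, h8⟩)
    have h1 : A3'.card ≤ ((Finset.Icc (1 : ℤ) S0) ×ˢ P).card := by
      apply Finset.card_le_card_of_injOn (fun D => (v D, (x D, m D)))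
      · intro D hD
        have hD' := (hmem D).1 hD
        obtain ⟨h1, h2, h3, h4, h5, -, -, -⟩ := hxmv D hD'
        rw [Finset.mem_coe, Finset.mem_product]
        refine ⟨?_, Finset.mem_image_of_mem _ hD⟩
        rw [Finset.mem_Icc]
        refine ⟨h4, ?_⟩
        by_contra hcon
        push Not at hcon
        apply hD'.2.2.2 (v D).toNat (by omega)
        have h6 : (((v D).toNat : ℕ) : ℤ) = v D := Int.toNat_of_nonneg (by omega)
        rw [h6]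
        refine ⟨sf ((f.scaleRoots (m D)).eval (x D)) * m D, ?_⟩
        conv_lhs => rw [h5]
        ring
      · intro D hD D' hD' heq
        obtain ⟨-, -, -, -, h5, -, -, -⟩ := hxmv D ((hmem D).1 hD)
        obtain ⟨-, -, -, -, h5', -, -, -⟩ := hxmv D' ((hmem D').1 hD')
        simp only [Prod.mk.injEq] at heq
        obtain ⟨e1, e2, e3⟩ := heq
        rw [h5, h5', e1, e2, e3]
    rw [Finset.card_product, Int.card_Icc] at h1
    have h2 : A3.ncard = A3'.card := Set.ncard_eq_toFinset_card _ _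
    rw [h2]
    calc A3'.card ≤ ((S0 : ℤ) + 1 - 1).toNat * P.card := h1
      _ = S0 * P.card := by
          congr 1
          omega
      _ ≤ _ := Nat.mul_le_mul_left _ hPcard
  have hfinU : ({D : ℤ | D ^ 2 < N} ∪
      {D : ℤ | D ≠ 0 ∧ |D| ≤ N ∧ ∃ s : ℕ, S0 < s ∧ (s : ℤ) ^ 2 ∣ D} ∪ A3).Finite := by
    apply (Set.finite_Icc (-(N : ℤ)) N).subset
    rintro D ((hD | hD) | hD)
    · have hD' : D ^ 2 < N := hD
      rw [Set.mem_Icc, ← abs_le]
      have h1 : |D| ≤ D ^ 2 := by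
        rw [← sq_abs]
        exact Int.le_self_sq _
      omega
    · exact abs_le.1 hD.2.1
    · exact abs_le.1 hD.2.1
  have hcard : Set.ncard {D : ℤ | D ∈ Exc f (2 * M0 + 3) ∧ |D| ≤ N} ≤
      (2 * Nat.sqrt N + 1) +
      Set.ncard {D : ℤ | D ≠ 0 ∧ |D| ≤ N ∧ ∃ s : ℕ, S0 < s ∧ (s : ℤ) ^ 2 ∣ D} +
      S0 * (c * (Y * (Nat.log 2 Y + 1) ^ k)) := by
    refine (Set.ncard_le_ncard hcover hfinU).trans ?_
    refine (Set.ncard_union_le _ _).trans ?_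
    refine Nat.add_le_add ?_ hA3card
    refine (Set.ncard_union_le _ _).trans ?_
    exact Nat.add_le_add (card_small N) le_rfl
  have hcard' : (Set.ncard {D : ℤ | D ∈ Exc f (2 * M0 + 3) ∧ |D| ≤ N} : ℝ) ≤
      (2 * (Nat.sqrt N : ℝ) + 1) +
      (Set.ncard {D : ℤ | D ≠ 0 ∧ |D| ≤ N ∧ ∃ s : ℕ, S0 < s ∧ (s : ℤ) ^ 2 ∣ D} : ℝ) +
      S0 * (c * (Y * ((Nat.log 2 Y : ℝ) + 1) ^ k)) := by exact_mod_cast hcard
  have hsq := card_large_sq S0 hS0 N
  have hsq' : 2 * (N : ℝ) / S0 ≤ ε / 4 * N := by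
    calc 2 * (N : ℝ) / S0 = (2 / (S0 : ℝ)) * N := by ring
      _ ≤ ε / 4 * N := mul_le_mul_of_nonneg_right hS0ε (by positivity)
  have hT' := hT Y (R ^ (k + 1) * N) hYZ
  have hlast : (S0 : ℝ) * (c * (Y * ((Nat.log 2 Y : ℝ) + 1) ^ k)) ≤ ε / 4 * N + S0 * c * T := by
    have hRpos : (0 : ℝ) < R := by exact_mod_cast hR
    have hS0pos : (0 : ℝ) < S0 := by exact_mod_cast hS0
    calc (S0 : ℝ) * (c * (Y * ((Nat.log 2 Y : ℝ) + 1) ^ k))
        ≤ S0 * (c * (ε / (4 * S0 * (c + 1) * R ^ (k + 1)) * ((R ^ (k + 1) * N : ℕ) : ℝ) + T)) := by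
          gcongr
      _ = (c / (c + 1)) * (ε / 4 * N) + S0 * c * T := by
          push_cast
          field_simp
      _ ≤ 1 * (ε / 4 * N) + S0 * c * T := by
          have : (c : ℝ) / (c + 1) ≤ 1 := by
            rw [div_le_one (by positivity)]
            linarith
          have h2 : 0 ≤ ε / 4 * (N : ℝ) := by positivity
          linarith [mul_le_mul_of_nonneg_right this h2]
      _ = ε / 4 * N + S0 * c * T := by ring
  have h1 := hN1 N (by omega)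
  have h2 := hN2 N (by omega)
  linarith

end Pool.Agent.K7.H89.BS
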