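import Pool.Agent.K7.H89.BS.D
import Pool.Agent.K7.H23.AT.Stm4

/-!
Project AT (MP_d88658_nt), case B: the statement `StBG2` from `StPC` and `StSF`.
-/

open Polynomial

set_option autoImplicit false

namespace Pool.Agent.K7.H89.BS

open Pool.Agent.K7.H23.AT

theorem point_dataG {k : ℕ} {f : ℤ[X]}
    (F : Fin (k + 1) → ℤ[X]) (hFf : f = ∏ i, F i) {R : ℕ} (hR : 1 ≤ R)
    (hR' : ∀ i j, i ≠ j → ∀ x m q : ℤ, IsCoprime x m →
      q ∣ ((F i).scaleRoots m).eval x → q ∣ ((F j).scaleRoots m).eval x → q ∣ (R : ℤ))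
    {B : ℤ} (hB : ∀ x m : ℤ, 0 < m → IsCoprime x m → B < |x| → (f.scaleRoots m).eval x ≠ 0)
    {sf : ℤ → ℤ} (hsf : ∀ z : ℤ, z ≠ 0 → Squarefree (sf z) ∧ ∃ t : ℤ, t ≠ 0 ∧ z = sf z * t ^ 2)
    {M0 N : ℕ} (hNB : B < (N : ℤ) ^ (M0 + 1)) {D g m x w : ℤ} (hD : D ≠ 0)
    (hDN : |D| ≤ N) (hDN' : (N : ℤ) ≤ D ^ 2) (hmg : D = g * m) (hsgm : 0 < m)
    (hxm : IsCoprime x m) (hw : g * (f.scaleRoots m).eval x = w ^ 2)
    (hx0 : |D| ^ (2 * M0 + 2) < |x|) :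
    ∃ v : ℤ, m ≤ N ∧ 1 ≤ v ∧
      D = sf ((f.scaleRoots m).eval x) * v ^ 2 * m ∧ (N : ℤ) ^ (M0 + 1) < |x| ∧
      (∀ i, ((F i).scaleRoots m).eval x ≠ 0) ∧
      m * ∏ i, |sf (((F i).scaleRoots m).eval x)| ≤ (R : ℤ) ^ (k + 1) * N := by
  classical
  have hgne : g ≠ 0 := by
    rintro h
    apply hD
    rw [hmg, h, zero_mul]
  have hgabs : 0 < |g| := abs_pos.2 hgne
  have hDabs : |D| = |g| * m := by rw [hmg, abs_mul, abs_of_pos hsgm]
  have hmN : m ≤ N := by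
    refine le_trans ?_ hDN
    rw [hDabs]
    exact le_mul_of_one_le_left hsgm.le hgabs
  have hxbig : (N : ℤ) ^ (M0 + 1) < |x| := by
    calc (N : ℤ) ^ (M0 + 1) ≤ (D ^ 2) ^ (M0 + 1) := pow_le_pow_left₀ (by positivity) hDN' _
      _ = |D| ^ (2 * M0 + 2) := by
          rw [← sq_abs D]
          ring
      _ < |x| := hx0
  have hF0 : (f.scaleRoots m).eval x ≠ 0 := hB x m hsgm hxm (hNB.trans hxbig)
  have hprod : (f.scaleRoots m).eval x = ∏ i, ((F i).scaleRoots m).eval x := by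
    rw [hFf, scaleRoots_prod, eval_prod]
  have hFi0 : ∀ i, ((F i).scaleRoots m).eval x ≠ 0 := by
    rw [hprod] at hF0
    intro i
    exact Finset.prod_ne_zero_iff.1 hF0 i (Finset.mem_univ i)
  obtain ⟨hsq, t, ht, htF⟩ := hsf _ hF0
  obtain ⟨v, hv⟩ := sq_lemma hw htF hsq ht
  have hv0 : v ≠ 0 := by
    rintro rfl
    apply hgne
    rw [hv]
    ring
  refine ⟨|v|, hmN, Int.one_le_abs hv0, ?_, hxbig, hFi0, ?_⟩
  · rw [sq_abs, ← hv, ← hmg]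
  · choose hsqi ti hti htFi using fun i => hsf _ (hFi0 i)
    have h1 : ∏ i, |sf (((F i).scaleRoots m).eval x)| ≤
        (R : ℤ) ^ (k + 1) * |sf ((f.scaleRoots m).eval x)| := by
      refine prod_bound (fun i => sf (((F i).scaleRoots m).eval x)) hsqi hR ?_
        (t := t) (Y := ∏ i, ti i) ?_ ?_ ?_
      · intro i j hij q hqi hqj
        refine hR' i j hij x m q hxm ?_ ?_
        · rw [htFi i]; exact Dvd.dvd.mul_right hqi _
        · rw [htFi j]; exact Dvd.dvd.mul_right hqj _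
      · exact hsq.ne_zero
      · exact Finset.prod_ne_zero_iff.2 fun i _ => hti i
      · rw [← htF, hprod, ← Finset.prod_pow, ← Finset.prod_mul_distrib]
        exact Finset.prod_congr rfl fun i _ => (htFi i).symm
    have h2 : |g| = |sf ((f.scaleRoots m).eval x)| * v ^ 2 := by
      rw [hv, abs_mul, abs_of_nonneg (sq_nonneg v)]
    have h3 : |sf ((f.scaleRoots m).eval x)| ≤ |g| := by
      rw [h2]
      apply le_mul_of_one_le_right (abs_nonneg _)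
      have := Int.one_le_abs hv0
      rw [← sq_abs]
      nlinarith
    calc m * ∏ i, |sf (((F i).scaleRoots m).eval x)|
        ≤ m * ((R : ℤ) ^ (k + 1) * |sf ((f.scaleRoots m).eval x)|) :=
          mul_le_mul_of_nonneg_left h1 hsgm.le
      _ ≤ m * ((R : ℤ) ^ (k + 1) * |g|) := by
          apply mul_le_mul_of_nonneg_left _ hsgm.le
          exact mul_le_mul_of_nonneg_left h3 (by positivity)
      _ = (R : ℤ) ^ (k + 1) * |D| := by rw [hDabs]; ring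
      _ ≤ (R : ℤ) ^ (k + 1) * N := mul_le_mul_of_nonneg_left hDN (by positivity)



open Filter in
theorem asym2 (k : ℕ) (q : ℝ) (hq : 0 < q) : ∃ T : ℝ, 0 ≤ T ∧ ∀ Y Z : ℕ, 1 ≤ Y → 1 ≤ Z →
    Y ^ (k + 1) ≤ Z ^ k →
    (Y : ℝ) * ((Nat.log 2 Y : ℝ) + 1) ^ k ≤ T * (Z : ℝ) ^ ((k : ℝ) / (k + 1) + q) := by
  have hr : 1 < (2 : ℝ) ^ q := Real.one_lt_rpow (by norm_num) hq
  have h1 : Tendsto (fun l : ℕ => (l : ℝ) ^ k / ((2 : ℝ) ^ q) ^ l) atTop (nhds 0) :=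
    tendsto_pow_const_div_const_pow_of_one_lt k hr
  obtain ⟨T, hT⟩ := h1.bddAbove_range
  have hT' : ∀ l : ℕ, (l : ℝ) ^ k / ((2 : ℝ) ^ q) ^ l ≤ T := fun l => hT ⟨l, rfl⟩
  have hT0 : 0 ≤ T := le_trans (by positivity) (hT' 1)
  refine ⟨T * 2 ^ q, by positivity, fun Y Z hY hZ hYZ => ?_⟩
  set l := Nat.log 2 Y with hl
  have hY' : (1 : ℝ) ≤ Y := by exact_mod_cast hY
  have hZ' : (1 : ℝ) ≤ Z := by exact_mod_cast hZ
  have h2 : ((l : ℝ) + 1) ^ k ≤ T * 2 ^ q * (Y : ℝ) ^ q := by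
    have h3 := hT' (l + 1)
    rw [div_le_iff₀ (by positivity)] at h3
    push_cast at h3
    refine h3.trans ?_
    rw [pow_succ', ← mul_assoc]
    apply mul_le_mul_of_nonneg_left _ (by positivity)
    rw [← Real.rpow_natCast, ← Real.rpow_mul (by norm_num), mul_comm q, Real.rpow_mul (by norm_num),
      Real.rpow_natCast]
    apply Real.rpow_le_rpow (by positivity) _ hq.le
    exact_mod_cast Nat.pow_log_le_self 2 (by omega)
  have h4 : (Y : ℝ) ≤ (Z : ℝ) ^ ((k : ℝ) / (k + 1)) := by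
    have h5 : (Y : ℝ) ^ (k + 1) ≤ (Z : ℝ) ^ k := by exact_mod_cast hYZ
    have h6 : ((Y : ℝ) ^ (k + 1)) ^ ((1 : ℝ) / (k + 1)) ≤ ((Z : ℝ) ^ k) ^ ((1 : ℝ) / (k + 1)) :=
      Real.rpow_le_rpow (by positivity) h5 (by positivity)
    rw [← Real.rpow_natCast, ← Real.rpow_mul (by positivity), ← Real.rpow_natCast,
      ← Real.rpow_mul (by positivity)] at h6
    have e1 : ((k + 1 : ℕ) : ℝ) * (1 / (k + 1)) = 1 := by
      push_cast
      field_simp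
    rw [e1, Real.rpow_one] at h6
    refine h6.trans (le_of_eq ?_)
    congr 1
    ring
  have hlt : (k : ℝ) / (k + 1) ≤ 1 := by
    rw [div_le_one (by positivity)]
    linarith
  calc (Y : ℝ) * ((l : ℝ) + 1) ^ k ≤ Y * (T * 2 ^ q * (Y : ℝ) ^ q) :=
        mul_le_mul_of_nonneg_left h2 (by positivity)
    _ = T * 2 ^ q * (Y * (Y : ℝ) ^ q) := by ring
    _ ≤ T * 2 ^ q * ((Z : ℝ) ^ ((k : ℝ) / (k + 1)) * ((Z : ℝ) ^ ((k : ℝ) / (k + 1))) ^ q) := by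
        apply mul_le_mul_of_nonneg_left _ (by positivity)
        exact mul_le_mul h4 (Real.rpow_le_rpow (by positivity) h4 hq.le) (by positivity)
          (by positivity)
    _ ≤ T * 2 ^ q * ((Z : ℝ) ^ ((k : ℝ) / (k + 1)) * (Z : ℝ) ^ q) := by
        apply mul_le_mul_of_nonneg_left _ (by positivity)
        apply mul_le_mul_of_nonneg_left _ (by positivity)
        apply Real.rpow_le_rpow (by positivity) _ hq.le
        calc (Z : ℝ) ^ ((k : ℝ) / (k + 1)) ≤ (Z : ℝ) ^ (1 : ℝ) :=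
              Real.rpow_le_rpow_of_exponent_le hZ' hlt
          _ = Z := Real.rpow_one _
    _ = T * 2 ^ q * (Z : ℝ) ^ ((k : ℝ) / (k + 1) + q) := by
        rw [Real.rpow_add (by linarith)]

/-- **Case B with a power saving.** -/
theorem bg_power (hPC : StPC) (hSF : StSF) : ∀ n : ℕ, 1 ≤ n → ∃ M : ℕ, ∀ f : ℤ[X], f.Monic →
    f.natDegree = n → (f.map (Int.castRingHom ℚ)).Separable →
    (∀ f₁ : ℤ[X], f₁.Monic → Irreducible f₁ → f₁ ∣ f → f₁.natDegree + 3 ≤ n) →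
    ∃ C κ : ℝ, κ < 1 ∧ ∀ N : ℕ, 1 ≤ N →
      (Set.ncard {D : ℤ | D ∈ ExcG f M ∧ |D| ≤ N} : ℝ) ≤ C * (N : ℝ) ^ κ := by
  classical
  intro n hn1
  have hSF' : ∀ e : ℕ, ∃ M N : ℕ, 3 ≤ e → ∀ (H : ℕ) (g : ℤ[X]) (D : ℚ[X]) (s : Finset (ℤ × ℤ)),
      1 ≤ H → g.Monic → g.natDegree = e → (g.map (Int.castRingHom ℚ)).Separable →
      (∀ i, |g.coeff i| ≤ H) →
      (∀ θ : ℂ, aeval θ g = 0 → IsIntegral ℤ (aeval θ D) ∧ aeval θ D ≠ 0 ∧ ‖aeval θ D‖ ≤ H) →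
      (∀ p ∈ s, 0 < p.2 ∧ p.2 ≤ H ∧ IsCoprime p.1 p.2 ∧ (2 * H : ℤ) ^ M < |p.1| ∧
        ∃ b : ℤ, b ≠ 0 ∧ ∃ B : ℚ[X], g.map (Int.castRingHom ℚ) ∣
          B ^ 2 - C (b : ℚ) * D * (C (p.1 : ℚ) - C (p.2 : ℚ) * X)) →
      s.card ≤ N := by
    intro e
    by_cases he : 3 ≤ e
    · obtain ⟨M, N, h⟩ := hSF e he
      exact ⟨M, N, fun _ => h⟩
    · exact ⟨0, 0, fun h => absurd h he⟩
  choose Me Ne hMN using hSF'
  obtain ⟨M0, hM0⟩ : ∃ M0, ∀ e ≤ n, Me e ≤ M0 :=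
    ⟨∑ e ∈ Finset.range (n + 1), Me e, fun e he => Finset.single_le_sum (f := Me)
      (fun _ _ => Nat.zero_le _) (Finset.mem_range.2 (by omega))⟩
  refine ⟨2 * M0 + 2, fun f hf hdeg hsep hfac => ?_⟩
  obtain ⟨k', F, hFm, hFi, hinj, hFf⟩ := exists_fin hf hsep
  obtain ⟨k, rfl⟩ : ∃ k, k' = k + 1 := by
    rcases Nat.eq_zero_or_pos k' with h | h
    · subst h
      rw [hFf] at hdeg
      simp at hdeg
      omega
    · exact ⟨k' - 1, by omega⟩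
  have hFd : ∀ j, (F j).natDegree + 3 ≤ n := fun j =>
    hfac _ (hFm j) (hFi j) (by rw [hFf]; exact Finset.dvd_prod_of_mem _ (Finset.mem_univ j))
  have hsplit : ∀ j, f = F j * ∏ i, F (j.succAbove i) := fun j => by
    rw [hFf, Fin.prod_univ_succAbove F j]
  have hG : ∀ j : Fin (k + 1), (∏ i, F (j.succAbove i)).Monic :=
    fun j => monic_prod_of_monic _ _ fun i _ => hFm _
  have hGd : ∀ j : Fin (k + 1), (F j).natDegree + (∏ i, F (j.succAbove i)).natDegree = n := by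
    intro j
    rw [← hdeg, hsplit j, (hFm j).natDegree_mul (hG j)]
  have hGd3 : ∀ j : Fin (k + 1), 3 ≤ (∏ i, F (j.succAbove i)).natDegree := by
    intro j
    have := hGd j
    have := hFd j
    omega
  have hk : 1 ≤ k := by
    rcases Nat.eq_zero_or_pos k with h | h
    · subst h
      have := hGd3 0
      simp at this
    · exact h
  have hsepG : ∀ j : Fin (k + 1),
      ((∏ i, F (j.succAbove i)).map (Int.castRingHom ℚ)).Separable := by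
    intro j
    apply Separable.of_dvd hsep
    rw [hsplit j, Polynomial.map_mul]
    exact dvd_mul_left _ _
  obtain ⟨R, hR, hR'⟩ := exists_R F hFm hFi hinj
  obtain ⟨B, hB⟩ := eval_ne_zero hf
  obtain ⟨sf, hsf⟩ := exists_sf
  obtain ⟨c, N0, hcN⟩ := classes hPC hk F hFm hFi hinj
    (Me := fun j => Me (∏ i, F (j.succAbove i)).natDegree)
    (Ne := fun j => Ne (∏ i, F (j.succAbove i)).natDegree)
    (fun j => hMN _ (hGd3 j)) hsepG (M0 := M0)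
    (fun j => hM0 _ (by have := hGd j; omega)) hR hsf
  -- the parameters
  obtain ⟨q, hqdef⟩ : ∃ q : ℝ, q = 1 / (4 * (k + 1)) := ⟨_, rfl⟩
  have hk' : (1 : ℝ) ≤ k := by exact_mod_cast hk
  have hq0 : 0 < q := by rw [hqdef]; positivity
  have hq8 : q ≤ 1 / 8 := by
    rw [hqdef]
    apply one_div_le_one_div_of_le (by norm_num)
    linarith
  obtain ⟨T, hT0, hT⟩ := asym2 k q hq0
  obtain ⟨N2, hN2⟩ : ∃ N2, N2 = N0 + B.toNat + 2 := ⟨_, rfl⟩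
  refine ⟨(2 * N2 + 1) + (5 + 2 * c * T * ((R ^ (k + 1) : ℕ) : ℝ) ^ ((k : ℝ) / (k + 1) + q)),
    1 - q, by linarith, fun N hNpos => ?_⟩
  have hNpos' : (1 : ℝ) ≤ N := by exact_mod_cast hNpos
  have hNq : (1 : ℝ) ≤ (N : ℝ) ^ (1 - q) := Real.one_le_rpow hNpos' (by linarith)
  have hfinA : {D : ℤ | D ∈ ExcG f (2 * M0 + 2) ∧ |D| ≤ N} ⊆ Set.Icc (-(N : ℤ)) N := by
    intro D hD
    exact abs_le.1 hD.2
  rcases lt_or_ge N N2 with hN | hN
  · have h1 : Set.ncard {D : ℤ | D ∈ ExcG f (2 * M0 + 2) ∧ |D| ≤ N} ≤ 2 * N + 1 := by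
      refine (Set.ncard_le_ncard hfinA (Set.finite_Icc _ _)).trans ?_
      rw [← Finset.coe_Icc, Set.ncard_coe_finset, Int.card_Icc]
      omega
    have h2 : (Set.ncard {D : ℤ | D ∈ ExcG f (2 * M0 + 2) ∧ |D| ≤ N} : ℝ) ≤ 2 * N2 + 1 := by
      have h3 : Set.ncard {D : ℤ | D ∈ ExcG f (2 * M0 + 2) ∧ |D| ≤ N} ≤ 2 * N2 + 1 := by omega
      exact_mod_cast h3
    have h4 : (0 : ℝ) ≤ 5 + 2 * c * T * ((R ^ (k + 1) : ℕ) : ℝ) ^ ((k : ℝ) / (k + 1) + q) := by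
      positivity
    calc (Set.ncard {D : ℤ | D ∈ ExcG f (2 * M0 + 2) ∧ |D| ≤ N} : ℝ)
        ≤ ((2 * N2 + 1) + (5 + 2 * c * T * ((R ^ (k + 1) : ℕ) : ℝ) ^ ((k : ℝ) / (k + 1) + q))) * 1 := by
          linarith
      _ ≤ _ := mul_le_mul_of_nonneg_left hNq (by positivity)
  obtain ⟨Y, hYZ, hY⟩ := hcN N (by omega) hNpos
  have hZ1 : 1 ≤ R ^ (k + 1) * N := Nat.mul_pos (pow_pos hR _) hNpos
  have hNB : B < (N : ℤ) ^ (M0 + 1) := by
    have h1 : B < N := by omega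
    have h2 : (N : ℤ) ≤ (N : ℤ) ^ (M0 + 1) := by
      exact_mod_cast Nat.le_self_pow (by omega) N
    omega
  obtain ⟨S0, hS0def⟩ : ∃ S0 : ℕ, S0 = ⌈(N : ℝ) ^ q⌉₊ := ⟨_, rfl⟩
  have hNq1 : (1 : ℝ) ≤ (N : ℝ) ^ q := Real.one_le_rpow hNpos' hq0.le
  have hS0le : (N : ℝ) ^ q ≤ S0 := by rw [hS0def]; exact Nat.le_ceil _
  have hS0 : 1 ≤ S0 := by
    have : (1 : ℝ) ≤ S0 := hNq1.trans hS0le
    exact_mod_cast this
  have hS0ge : (S0 : ℝ) ≤ 2 * (N : ℝ) ^ q := by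
    have := Nat.ceil_lt_add_one (a := (N : ℝ) ^ q) (by positivity)
    rw [hS0def]
    linarith
  -- the exceptional set
  set A3 : Set ℤ := {D : ℤ | D ∈ ExcG f (2 * M0 + 2) ∧ |D| ≤ N ∧ (N : ℤ) ≤ D ^ 2 ∧
    ∀ s : ℕ, S0 < s → ¬ (s : ℤ) ^ 2 ∣ D} with hA3
  have hA3fin : A3.Finite := by
    apply (Set.finite_Icc (-(N : ℤ)) N).subset
    intro D hD
    exact abs_le.1 hD.2.1
  have hcover : {D : ℤ | D ∈ ExcG f (2 * M0 + 2) ∧ |D| ≤ N} ⊆ {D : ℤ | D ^ 2 < N} ∪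
      {D : ℤ | D ≠ 0 ∧ |D| ≤ N ∧ ∃ s : ℕ, S0 < s ∧ (s : ℤ) ^ 2 ∣ D} ∪ A3 := by
    rintro D ⟨hD, hDN⟩
    by_cases h1 : D ^ 2 < N
    · exact Or.inl (Or.inl h1)
    · by_cases h2 : ∃ s : ℕ, S0 < s ∧ (s : ℤ) ^ 2 ∣ D
      · exact Or.inl (Or.inr ⟨hD.1, hDN, h2⟩)
      · push Not at h1 h2
        exact Or.inr ⟨hD, hDN, h1, h2⟩
  have hA3card : A3.ncard ≤ S0 * (c * (Y * (Nat.log 2 Y + 1) ^ k)) := by
    have hdata : ∀ D : ℤ, ∃ x m v : ℤ, D ∈ A3 → 0 < m ∧ m ≤ N ∧ IsCoprime x m ∧ 1 ≤ v ∧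
        D = sf ((f.scaleRoots m).eval x) * v ^ 2 * m ∧ (N : ℤ) ^ (M0 + 1) < |x| ∧
        (∀ i, ((F i).scaleRoots m).eval x ≠ 0) ∧
        m * ∏ i, |sf (((F i).scaleRoots m).eval x)| ≤ (R : ℤ) ^ (k + 1) * N := by
      intro D
      by_cases hD : D ∈ A3
      · obtain ⟨⟨hD0, g, m, x, w, hDg, hm0, hxm, hw, hx0⟩, hDN, hDN', -⟩ := hD
        obtain ⟨v, h1, h⟩ := point_dataG F hFf hR hR' hB hsf hNB hD0 hDN hDN' hDg hm0 hxm
          hw.symm hx0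
        exact ⟨x, m, v, fun _ => ⟨hm0, h1, hxm, h⟩⟩
      · exact ⟨0, 0, 0, fun h => absurd h hD⟩
    choose x m v hxmv using hdata
    set A3' := hA3fin.toFinset with hA3'
    have hmem : ∀ D, D ∈ A3' ↔ D ∈ A3 := fun D => Set.Finite.mem_toFinset _
    set P : Finset (ℤ × ℤ) := A3'.image fun D => (x D, m D) with hP
    have hPcard := hY P (by
      intro p hp
      rw [hP, Finset.mem_image] at hp
      obtain ⟨D, hD, rfl⟩ := hp
      obtain ⟨h1, h2, h3, -, -, h6, h7, h8⟩ := hxmv D ((hmem D).1 hD)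
      exact ⟨h1, h2, h3, h6, h7, h8⟩)
    have h1 : A3'.card ≤ ((Finset.Icc (1 : ℤ) S0) ×ˢ P).card := by
      apply Finset.card_le_card_of_injOn (fun D => (v D, (x D, m D)))
      · intro D hD
        have hD' := (hmem D).1 hD
        obtain ⟨h1, h2, h3, h4, h5, -, -, -⟩ := hxmv D hD'
        rw [Finset.mem_coe, Finset.mem_product]
        refine ⟨?_, Finset.mem_image_of_mem _ hD⟩
        rw [Finset.mem_Icc]
        refine ⟨h4, ?_⟩
        by_contra hcon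
        push Not at hcon
        apply hD'.2.2.2 (v D).toNat (by omega)
        have h6 : (((v D).toNat : ℕ) : ℤ) = v D := Int.toNat_of_nonneg (by omega)
        rw [h6]
        refine ⟨sf ((f.scaleRoots (m D)).eval (x D)) * m D, ?_⟩
        conv_lhs => rw [h5]
        ring
      · intro D hD D' hD' heq
        obtain ⟨-, -, -, -, h5, -, -, -⟩ := hxmv D ((hmem D).1 hD)
        obtain ⟨-, -, -, -, h5', -, -, -⟩ := hxmv D' ((hmem D').1 hD')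
        simp only [Prod.mk.injEq] at heq
        obtain ⟨e1, e2, e3⟩ := heq
        rw [h5, h5', e1, e2, e3]
    rw [Finset.card_product, Int.card_Icc] at h1
    have h2 : A3.ncard = A3'.card := Set.ncard_eq_toFinset_card _ _
    rw [h2]
    calc A3'.card ≤ ((S0 : ℤ) + 1 - 1).toNat * P.card := h1
      _ = S0 * P.card := by
          congr 1
          omega
      _ ≤ _ := Nat.mul_le_mul_left _ hPcard
  have hfinU : ({D : ℤ | D ^ 2 < N} ∪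
      {D : ℤ | D ≠ 0 ∧ |D| ≤ N ∧ ∃ s : ℕ, S0 < s ∧ (s : ℤ) ^ 2 ∣ D} ∪ A3).Finite := by
    apply (Set.finite_Icc (-(N : ℤ)) N).subset
    rintro D ((hD | hD) | hD)
    · have hD' : D ^ 2 < N := hD
      rw [Set.mem_Icc, ← abs_le]
      have h1 : |D| ≤ D ^ 2 := by
        rw [← sq_abs]
        exact Int.le_self_sq _
      omega
    · exact abs_le.1 hD.2.1
    · exact abs_le.1 hD.2.1
  have hcard : Set.ncard {D : ℤ | D ∈ ExcG f (2 * M0 + 2) ∧ |D| ≤ N} ≤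
      (2 * Nat.sqrt N + 1) +
      Set.ncard {D : ℤ | D ≠ 0 ∧ |D| ≤ N ∧ ∃ s : ℕ, S0 < s ∧ (s : ℤ) ^ 2 ∣ D} +
      S0 * (c * (Y * (Nat.log 2 Y + 1) ^ k)) := by
    refine (Set.ncard_le_ncard hcover hfinU).trans ?_
    refine (Set.ncard_union_le _ _).trans ?_
    refine Nat.add_le_add ?_ hA3card
    refine (Set.ncard_union_le _ _).trans ?_
    exact Nat.add_le_add (card_small N) le_rfl
  have hcard' : (Set.ncard {D : ℤ | D ∈ ExcG f (2 * M0 + 2) ∧ |D| ≤ N} : ℝ) ≤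
      (2 * (Nat.sqrt N : ℝ) + 1) +
      (Set.ncard {D : ℤ | D ≠ 0 ∧ |D| ≤ N ∧ ∃ s : ℕ, S0 < s ∧ (s : ℤ) ^ 2 ∣ D} : ℝ) +
      S0 * (c * (Y * ((Nat.log 2 Y : ℝ) + 1) ^ k)) := by exact_mod_cast hcard
  have hsq := card_large_sq S0 hS0 N
  have hS0pos : (0 : ℝ) < S0 := by exact_mod_cast hS0
  have hsq' : 2 * (N : ℝ) / S0 ≤ 2 * (N : ℝ) ^ (1 - q) := by
    rw [div_le_iff₀ hS0pos]
    have h1 : (N : ℝ) = (N : ℝ) ^ (1 - q) * (N : ℝ) ^ q := by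
      rw [← Real.rpow_add (by linarith), sub_add_cancel, Real.rpow_one]
    have h2 : (N : ℝ) ^ (1 - q) * (N : ℝ) ^ q ≤ (N : ℝ) ^ (1 - q) * S0 :=
      mul_le_mul_of_nonneg_left hS0le (by positivity)
    rw [← h1] at h2
    linarith
  have hsqrt : (Nat.sqrt N : ℝ) ≤ (N : ℝ) ^ (1 - q) := by
    have h1 : ((Nat.sqrt N : ℕ) : ℝ) ≤ Real.sqrt N := Real.nat_sqrt_le_real_sqrt
    refine h1.trans ?_
    rw [Real.sqrt_eq_rpow]
    exact Real.rpow_le_rpow_of_exponent_le hNpos' (by linarith)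
  have hlast : (S0 : ℝ) * (c * (Y * ((Nat.log 2 Y : ℝ) + 1) ^ k)) ≤
      2 * c * T * ((R ^ (k + 1) : ℕ) : ℝ) ^ ((k : ℝ) / (k + 1) + q) * (N : ℝ) ^ (1 - q) := by
    rcases Nat.eq_zero_or_pos Y with hY0 | hY0
    · rw [hY0]
      simp only [Nat.cast_zero, zero_mul, mul_zero]
      positivity
    have hT' := hT Y (R ^ (k + 1) * N) hY0 hZ1 hYZ
    have e1 : (((R ^ (k + 1) * N : ℕ) : ℝ)) ^ ((k : ℝ) / (k + 1) + q) =
        ((R ^ (k + 1) : ℕ) : ℝ) ^ ((k : ℝ) / (k + 1) + q) * (N : ℝ) ^ ((k : ℝ) / (k + 1) + q) := by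
      rw [Nat.cast_mul, Real.mul_rpow (by positivity) (by positivity)]
    rw [e1] at hT'
    have e2 : (N : ℝ) ^ q * (N : ℝ) ^ ((k : ℝ) / (k + 1) + q) ≤ (N : ℝ) ^ (1 - q) := by
      rw [← Real.rpow_add (by linarith)]
      apply Real.rpow_le_rpow_of_exponent_le hNpos'
      rw [hqdef]
      have : (0 : ℝ) < (k : ℝ) + 1 := by positivity
      rw [← sub_nonneg]
      have e3 : 1 - 1 / (4 * ((k : ℝ) + 1)) - (1 / (4 * (k + 1)) + (k / (k + 1) + 1 / (4 * (k + 1)))) =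
          1 / (4 * ((k : ℝ) + 1)) := by
        field_simp
        ring
      rw [e3]
      positivity
    calc (S0 : ℝ) * (c * (Y * ((Nat.log 2 Y : ℝ) + 1) ^ k))
        ≤ (2 * (N : ℝ) ^ q) * (c * (T * (((R ^ (k + 1) : ℕ) : ℝ) ^ ((k : ℝ) / (k + 1) + q) *
          (N : ℝ) ^ ((k : ℝ) / (k + 1) + q)))) := by gcongr
      _ = 2 * c * T * ((R ^ (k + 1) : ℕ) : ℝ) ^ ((k : ℝ) / (k + 1) + q) *
          ((N : ℝ) ^ q * (N : ℝ) ^ ((k : ℝ) / (k + 1) + q)) := by ring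
      _ ≤ _ := mul_le_mul_of_nonneg_left e2 (by positivity)
  have hN20 : (0 : ℝ) ≤ (2 * N2 + 1) * (N : ℝ) ^ (1 - q) := by positivity
  rw [add_mul, add_mul 5]
  linarith

open Filter in
theorem bg2 (hPC : StPC) (hSF : StSF) : StBG2 := by
  intro n hn
  obtain ⟨M, hM⟩ := bg_power hPC hSF n hn
  refine ⟨M, fun f hf hdeg hsep hfac ε hε => ?_⟩
  obtain ⟨C, κ, hκ, h⟩ := hM f hf hdeg hsep hfac
  have h1 : Tendsto (fun N : ℕ => C * (N : ℝ) ^ (κ - 1)) atTop (nhds (C * 0)) := by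
    apply Tendsto.const_mul
    have h2 := (tendsto_rpow_neg_atTop (y := 1 - κ) (by linarith)).comp
      tendsto_natCast_atTop_atTop
    refine h2.congr fun N => ?_
    simp only [Function.comp]
    congr 1
    ring
  rw [mul_zero] at h1
  obtain ⟨N0, hN0⟩ := eventually_atTop.1 (h1.eventually_lt_const hε)
  refine ⟨N0 + 1, fun N hN => ?_⟩
  have h2 := hN0 N (by omega)
  have hN : (0 : ℝ) < N := by exact_mod_cast (by omega : 0 < N)
  refine (h N (by omega)).trans ?_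
  calc C * (N : ℝ) ^ κ = C * (N : ℝ) ^ (κ - 1) * N := by
        rw [mul_assoc]
        congr 1
        conv_rhs => rw [← Real.rpow_one (N : ℝ), ← Real.rpow_mul hN.le, one_mul]
        rw [← Real.rpow_add hN]
        congr 1
        ring
    _ ≤ ε * N := mul_le_mul_of_nonneg_right h2.le hN.le

end Pool.Agent.K7.H89.BS
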